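import Pool.Agent.Helper21.Pred.Defs

/-!
# Predictions: counting at one place

For an integral matrix `A` of size two with unit determinant and a set `X` of residue classes, at
least `(q - 1) |X|` of the `q ^ 2` matrices `U_t L_s A` have their trace in `X`.
-/

set_option autoImplicit false

namespace Pool.Agent.Helper21.Pred

section

variable {E : Type*} [NontriviallyNormedField E] [IsUltrametricDist E]

/-- the product of an upper and a lower unipotent matrix -/
def ul (s t : E) : Matrix (Fin 2) (Fin 2) E := !![1 + t * s, t; s, 1]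

omit [IsUltrametricDist E] in
theorem ul_det (s t : E) : (ul s t).det = 1 := by
  rw [ul, Matrix.det_fin_two_of]
  ring

omit [IsUltrametricDist E] in
theorem ul_trace (s t : E) (A : Matrix (Fin 2) (Fin 2) E) :
    (ul s t * A).trace = t * (s * A 0 0 + A 1 0) + (A 0 0 + s * A 0 1 + A 1 1) := by
  rw [Matrix.trace_fin_two, Matrix.mul_apply, Matrix.mul_apply, Fin.sum_univ_two, Fin.sum_univ_two]
  simp only [ul, Matrix.of_apply, Matrix.cons_val', Matrix.cons_val_zero, Matrix.cons_val_one,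
    Matrix.cons_val_fin_one]
  ring

private theorem nadd {a b : E} {c : ℝ} (ha : ‖a‖ ≤ c) (hb : ‖b‖ ≤ c) : ‖a + b‖ ≤ c :=
  (IsUltrametricDist.norm_add_le_max a b).trans (max_le ha hb)

private theorem nadd' {a b : E} {c : ℝ} (ha : ‖a‖ < c) (hb : ‖b‖ < c) : ‖a + b‖ < c :=
  (IsUltrametricDist.norm_add_le_max a b).trans_lt (max_lt ha hb)

private theorem nsub {a b : E} {c : ℝ} (ha : ‖a‖ ≤ c) (hb : ‖b‖ ≤ c) : ‖a - b‖ ≤ c := by
  rw [sub_eq_add_neg]
  exact nadd ha (by rwa [norm_neg])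

private theorem nsub' {a b : E} {c : ℝ} (ha : ‖a‖ < c) (hb : ‖b‖ < c) : ‖a - b‖ < c := by
  rw [sub_eq_add_neg]
  exact nadd' ha (by rwa [norm_neg])

omit [IsUltrametricDist E] in
private theorem nmul {a b : E} (ha : ‖a‖ ≤ 1) (hb : ‖b‖ ≤ 1) : ‖a * b‖ ≤ 1 := by
  rw [norm_mul]
  exact mul_le_one₀ ha (norm_nonneg _) hb

/-- at most one residue class `s` makes `s a + c` a non-unit -/
private theorem card_bad_le {R : Finset E} (hR : IsReps R) (A : Matrix (Fin 2) (Fin 2) E)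
    (hA : ∀ i j, ‖A i j‖ ≤ 1) (hdet : ‖A.det‖ = 1) (B : Finset E)
    (hB : ∀ s ∈ B, s ∈ R ∧ ‖s * A 0 0 + A 1 0‖ < 1) : B.card ≤ 1 := by
  rw [Finset.card_le_one]
  intro s hs s' hs'
  obtain ⟨h1, h2⟩ := hB s hs
  obtain ⟨h3, h4⟩ := hB s' hs'
  have ha : ‖A 0 0‖ = 1 := by
    by_contra hne
    have ha' : ‖A 0 0‖ < 1 := lt_of_le_of_ne (hA 0 0) hne
    have hc : ‖A 1 0‖ < 1 := by
      have h5 : A 1 0 = (s * A 0 0 + A 1 0) - s * A 0 0 := by ring
      rw [h5]
      refine nsub' h2 ?_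
      rw [norm_mul]
      exact mul_lt_one_of_nonneg_of_lt_one_right (hR.1 s h1) (norm_nonneg _) ha'
    have h6 : ‖A.det‖ < 1 := by
      rw [Matrix.det_fin_two]
      refine nsub' ?_ ?_
      · rw [norm_mul]
        exact mul_lt_one_of_nonneg_of_lt_one_left (norm_nonneg _) ha' (hA 1 1)
      · rw [norm_mul]
        exact mul_lt_one_of_nonneg_of_lt_one_right (hA 0 1) (norm_nonneg _) hc
    exact absurd hdet h6.ne
  have h7 : ‖s - s'‖ < 1 := by
    have h8 : (s - s') * A 0 0 = (s * A 0 0 + A 1 0) - (s' * A 0 0 + A 1 0) := by ring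
    have h9 : ‖(s - s') * A 0 0‖ < 1 := by
      rw [h8]
      exact nsub' h2 h4
    rwa [norm_mul, ha, mul_one] at h9
  obtain ⟨z, -, hz⟩ := hR.2 s (hR.1 s h1)
  rw [hz s ⟨h1, by rw [sub_self, norm_zero]; exact one_pos⟩, hz s' ⟨h3, h7⟩]

theorem count_hits [DecidableEq E] {R : Finset E} (hR : IsReps R) (A : Matrix (Fin 2) (Fin 2) E)
    (hA : ∀ i j, ‖A i j‖ ≤ 1) (hdet : ‖A.det‖ = 1) (X : Finset E) (hX : X ⊆ R)
    (H : Finset (E × E))
    (hH : ∀ p : E × E, p ∈ H ↔ p.1 ∈ R ∧ p.2 ∈ R ∧ ∃ x ∈ X, ‖(ul p.1 p.2 * A).trace - x‖ < 1) :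
    (R.card - 1) * X.card ≤ H.card := by
  classical
  let Gd := R.filter fun s => ¬ ‖s * A 0 0 + A 1 0‖ < 1
  have hGd : R.card - 1 ≤ Gd.card := by
    have h1 := card_bad_le hR A hA hdet (R.filter fun s => ‖s * A 0 0 + A 1 0‖ < 1)
      fun s hs => Finset.mem_filter.1 hs
    have h2 := Finset.card_filter_add_card_filter_not (s := R) (fun s => ‖s * A 0 0 + A 1 0‖ < 1)
    show R.card - 1 ≤ (R.filter fun s => ¬ ‖s * A 0 0 + A 1 0‖ < 1).card
    omega
  have hfib : ∀ s ∈ Gd, X.card ≤ (H.filter fun p => p.1 = s).card := by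
    intro s hs
    obtain ⟨hsR, hs1⟩ := Finset.mem_filter.1 hs
    have hs2 : ‖s * A 0 0 + A 1 0‖ = 1 :=
      le_antisymm (nadd (nmul (hR.1 s hsR) (hA 0 0)) (hA 1 0)) (not_lt.1 hs1)
    have hne : s * A 0 0 + A 1 0 ≠ 0 := by
      intro h0
      rw [h0, norm_zero] at hs2
      exact zero_ne_one hs2
    have hb : ‖A 0 0 + s * A 0 1 + A 1 1‖ ≤ 1 :=
      nadd (nadd (hA 0 0) (nmul (hR.1 s hsR) (hA 0 1))) (hA 1 1)
    have hex : ∀ x ∈ X, ∃ t, t ∈ R ∧ ‖t * (s * A 0 0 + A 1 0) +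
        (A 0 0 + s * A 0 1 + A 1 1) - x‖ < 1 := by
      intro x hx
      obtain ⟨t, ⟨ht1, ht2⟩, -⟩ := hR.2 ((x - (A 0 0 + s * A 0 1 + A 1 1)) /
        (s * A 0 0 + A 1 0)) (by
          rw [norm_div, hs2, div_one]
          exact nsub (hR.1 x (hX hx)) hb)
      refine ⟨t, ht1, ?_⟩
      have h3 : t * (s * A 0 0 + A 1 0) + (A 0 0 + s * A 0 1 + A 1 1) - x =
          -(((x - (A 0 0 + s * A 0 1 + A 1 1)) / (s * A 0 0 + A 1 0) - t) *
            (s * A 0 0 + A 1 0)) := by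
        field_simp
        ring
      rw [h3, norm_neg, norm_mul, hs2, mul_one]
      exact ht2
    choose! t ht1 ht2 using hex
    refine Finset.card_le_card_of_injOn (fun x => (s, t x)) ?_ ?_
    · intro x hx
      rw [Finset.mem_coe, Finset.mem_filter, hH]
      refine ⟨⟨hsR, ht1 x hx, x, hx, ?_⟩, rfl⟩
      rw [ul_trace]
      exact ht2 x hx
    · intro x hx y hy hxy
      have h4 : t x = t y := (Prod.mk.inj hxy).2
      have h5 := ht2 x hx
      have h6 := ht2 y hy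
      rw [h4] at h5
      have h7 : ‖x - y‖ < 1 := by
        have h8 : x - y = (t y * (s * A 0 0 + A 1 0) + (A 0 0 + s * A 0 1 + A 1 1) - y) -
            (t y * (s * A 0 0 + A 1 0) + (A 0 0 + s * A 0 1 + A 1 1) - x) := by ring
        rw [h8]
        exact nsub' h6 h5
      obtain ⟨z, -, hz⟩ := hR.2 x (hR.1 x (hX hx))
      rw [hz x ⟨hX hx, by rw [sub_self, norm_zero]; exact one_pos⟩, hz y ⟨hX hy, h7⟩]
  calc (R.card - 1) * X.card ≤ Gd.card * X.card := Nat.mul_le_mul_right _ hGd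
    _ = ∑ s ∈ Gd, X.card := by rw [Finset.sum_const, smul_eq_mul]
    _ ≤ ∑ s ∈ Gd, (H.filter fun p => p.1 = s).card := Finset.sum_le_sum hfib
    _ ≤ H.card := by
        rw [← Finset.card_biUnion]
        · refine Finset.card_le_card fun p hp => ?_
          rw [Finset.mem_biUnion] at hp
          obtain ⟨s, -, hp⟩ := hp
          exact (Finset.mem_filter.1 hp).1
        · intro s _ s' _ hss
          show Disjoint (H.filter fun p => p.1 = s) (H.filter fun p => p.1 = s')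
          rw [Finset.disjoint_left]
          intro p hp hp'
          exact hss ((Finset.mem_filter.1 hp).2.symm.trans (Finset.mem_filter.1 hp').2)

/-- there are at least two residue classes -/
theorem two_le_card {R : Finset E} (hR : IsReps R) : 2 ≤ R.card := by
  obtain ⟨a, ⟨ha1, ha2⟩, -⟩ := hR.2 0 (by rw [norm_zero]; exact zero_le_one)
  obtain ⟨b, ⟨hb1, hb2⟩, -⟩ := hR.2 1 (by rw [norm_one])
  have hne : a ≠ b := by
    rintro rfl
    have h1 : ‖(1 : E)‖ < 1 := by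
      have h2 : (1 : E) = (1 - a) - (0 - a) := by ring
      rw [h2]
      exact nsub' hb2 ha2
    rw [norm_one] at h1
    exact lt_irrefl _ h1
  exact Finset.one_lt_card.2 ⟨a, ha1, b, hb1, hne⟩

end

end Pool.Agent.Helper21.Pred
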