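import Pool.Agent.Helper37.Ub.Defs

/-!
# Definitions: predictions of Frobenius traces (MP_6cbef8_nt)
-/

set_option autoImplicit false

open MeasureTheory

namespace Pool.Agent.Helper21.Pred

/-- `R` is a system of representatives of the residue classes of the integers of `E`: its elements
have norm at most one, and every element of norm at most one is congruent to exactly one element of
`R` modulo the maximal ideal. -/
def IsReps {E : Type*} [NormedField E] (R : Finset E) : Prop :=
  (∀ x ∈ R, ‖x‖ ≤ 1) ∧ ∀ y : E, ‖y‖ ≤ 1 → ∃! x, x ∈ R ∧ ‖y - x‖ < 1

section

variable {Λ : Type*} {E : Λ → Type*} [∀ v, NontriviallyNormedField (E v)]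
  {G : Type*} [Group G] (V : ∀ v, G →* GL (Fin 2) (E v)) {d : ℕ}
  (T : ∀ (l : ℕ) [Fact l.Prime], G →* GL (Fin d) ℚ_[l]) (R : ∀ v, Finset (E v))
  (P : Λ → Set Λ) (X : ∀ v, G → Finset (E v))

/-- A prediction: for every place `v` and every `r` a set `X v r` of residue classes (given by
elements of the system of representatives `R v`).  It is measurable in `r`, and it depends only on
all `T l r`, `l` prime, on the determinants of all `V w r`, and on the `V w r` for the places `w` in
`P v`. -/
structure IsPrediction [MeasurableSpace G] : Prop where
  subset : ∀ v r, X v r ⊆ R v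
  measurable : ∀ v x, MeasurableSet {r | x ∈ X v r}
  determined : ∀ v r s, (∀ (l : ℕ) [Fact l.Prime], T l r = T l s) →
    (∀ w, (V w r : Matrix (Fin 2) (Fin 2) (E w)).det =
      (V w s : Matrix (Fin 2) (Fin 2) (E w)).det) →
    (∀ w ∈ P v, V w r = V w s) → X v r = X v s

/-- The prediction that the trace of `V v r` does not lie in the residue classes of `X v r` is wrong
at the place `v`. -/
def Wrong (r : G) (v : Λ) : Prop :=
  ∃ x ∈ X v r, ‖(V v r : Matrix (Fin 2) (Fin 2) (E v)).trace - x‖ < 1

/-- The share of the residue classes which are excluded by the prediction at the place `v`. -/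
noncomputable def share (v : Λ) (r : G) : ℝ := ((X v r).card : ℝ) / ((R v).card : ℝ)

/-- The number of errors at the first `N` places. -/
noncomputable def errors (e : ℕ ≃ Λ) (N : ℕ) (r : G) : ℕ := by
  classical exact ((Finset.range N).filter fun i => Wrong V X r (e i)).card

/-- The prediction `X` beats chance at `r` by the factor `c`: the sum of the shares of the excluded
classes over the first `N` places (the number of errors to be expected by chance) tends to infinity
with `N`, and for infinitely many `N` the number of errors at the first `N` places is at most `c`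
times this sum. -/
def BeatsChance (e : ℕ ≃ Λ) (c : ℝ) (r : G) : Prop :=
  Filter.Tendsto (fun N => ∑ i ∈ Finset.range N, share R X (e i) r) Filter.atTop Filter.atTop ∧
    ∃ᶠ N in Filter.atTop, (errors V X e N r : ℝ) ≤
      c * ∑ i ∈ Finset.range N, share R X (e i) r

end

end Pool.Agent.Helper21.Pred
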