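import Pool.Agent.Helper37.Ff.Ea

/-!
# Predictions: the trace is an eigenvalue of `T + det V T⁻¹`

If `V v` is potentially contained in `T (ℓ v)` for one place `v`, then there is an open subgroup `U`
such that for all `r` in `U` and ALL places `v` the trace of `V v r` is an eigenvalue of the matrix
`T (ℓ v) r + det (V v r) T (ℓ v) r⁻¹`.
-/

set_option autoImplicit false

open NumberField Polynomial MeasureTheory

namespace Pool.Agent.Helper21.Pred

open Pool.Agent.Helper37.Af Pool.Agent.Helper37.Fd Pool.Agent.Helper37.Ad Pool.Agent.Helper37.Ub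
  Pool.Agent.Helper37.Ff

private theorem charpoly_dvd {K : Type*} [Field K] {n : ℕ} (V : Matrix (Fin 2) (Fin 2) K)
    (A : Matrix (Fin n) (Fin n) K) (P : Matrix (Fin n) (Fin 2) K)
    (hP : Function.Injective P.mulVec) (h : A * P = P * V) : V.charpoly ∣ A.charpoly := by
  classical
  have hli : LinearIndependent K (fun i : Fin 2 => P.mulVec (Pi.single i 1)) := by
    have h1 : LinearIndependent K (fun i : Fin 2 => P.mulVecLin (Pi.single i (1 : K))) := by
      have h2 : LinearIndependent K (fun i : Fin 2 => (Pi.single i (1 : K) : Fin 2 → K)) := by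
        have h3 := (Pi.basisFun K (Fin 2)).linearIndependent
        have h4 : (fun i : Fin 2 => (Pi.single i (1 : K) : Fin 2 → K)) = Pi.basisFun K (Fin 2) := by
          funext i
          simp
        rw [h4]
        exact h3
      exact h2.map' P.mulVecLin (LinearMap.ker_eq_bot.mpr hP)
    exact h1
  obtain ⟨b, hb⟩ : ∃ b : Module.Basis (Fin 2 ⊕ Module.Basis.sumExtendIndex hli) K (Fin n → K),
      ∀ i : Fin 2, b (Sum.inl i) = P.mulVec (Pi.single i 1) := by
    refine ⟨Module.Basis.sumExtend hli, fun i => ?_⟩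
    simp only [Module.Basis.sumExtend, Module.Basis.coe_reindex, Function.comp_apply,
      Module.Basis.coe_extend]
    have : DecidablePred (· ∈ Set.range fun i : Fin 2 => P.mulVec (Pi.single i 1)) :=
      Classical.decPred _
    exact congrArg Subtype.val (Equiv.Set.sumDiffSubset_apply_inl
      (hli.linearIndepOn_id.subset_extend _)
      (Equiv.ofInjective (fun i : Fin 2 => P.mulVec (Pi.single i 1)) hli.injective i))
  obtain ⟨κ, hκ, hκ'⟩ : ∃ κ : Type _, ∃ _ : Fintype κ, κ = Module.Basis.sumExtendIndex hli := by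
    have : Fintype (Fin 2 ⊕ Module.Basis.sumExtendIndex hli) :=
      FiniteDimensional.fintypeBasisIndex b
    have h2 : Finite (Module.Basis.sumExtendIndex hli) :=
      Finite.of_injective (Sum.inr : _ → Fin 2 ⊕ Module.Basis.sumExtendIndex hli)
        Sum.inr_injective
    exact ⟨_, Fintype.ofFinite _, rfl⟩
  subst hκ'
  have hcol : ∀ (j : Fin 2), A.mulVec (P.mulVec (Pi.single j 1)) =
      ∑ i, V i j • P.mulVec (Pi.single i 1) := by
    intro j
    rw [Matrix.mulVec_mulVec, h, ← Matrix.mulVec_mulVec]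
    have h1 : V.mulVec (Pi.single j 1) = ∑ i, V i j • (Pi.single i (1 : K) : Fin 2 → K) := by
      funext k
      simp [Finset.sum_apply, Pi.single_apply]
    rw [h1, Matrix.mulVec_sum]
    simp only [Matrix.mulVec_smul]
  have hrep : ∀ (j : Fin 2) (i : Fin 2), b.repr (A.mulVec (b (Sum.inl j))) (Sum.inl i) = V i j := by
    intro j i
    rw [hb, hcol]
    have h1 : ∀ k : Fin 2, b.repr (P.mulVec (Pi.single k 1)) = Finsupp.single (Sum.inl k) 1 := by
      intro k
      rw [← hb, Module.Basis.repr_self]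
    simp only [map_sum, map_smul, h1, Finsupp.coe_finsetSum, Finsupp.coe_smul, Finset.sum_apply,
      Pi.smul_apply, Finsupp.single_apply, smul_eq_mul]
    simp
  have hrep' : ∀ (j : Fin 2) (i : Module.Basis.sumExtendIndex hli),
      b.repr (A.mulVec (b (Sum.inl j))) (Sum.inr i) = 0 := by
    intro j i
    rw [hb, hcol]
    have h1 : ∀ k : Fin 2, b.repr (P.mulVec (Pi.single k 1)) = Finsupp.single (Sum.inl k) 1 := by
      intro k
      rw [← hb, Module.Basis.repr_self]
    simp only [map_sum, map_smul, h1, Finsupp.coe_finsetSum, Finsupp.coe_smul, Finset.sum_apply,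
      Pi.smul_apply, Finsupp.single_apply, smul_eq_mul]
    simp
  have h3 : LinearMap.toMatrix b b (Matrix.toLin' A) =
      Matrix.fromBlocks V (LinearMap.toMatrix b b (Matrix.toLin' A)).toBlocks₁₂ 0
        (LinearMap.toMatrix b b (Matrix.toLin' A)).toBlocks₂₂ := by
    ext i j
    rcases i with i | i <;> rcases j with j | j
    · rw [LinearMap.toMatrix_apply, Matrix.fromBlocks_apply₁₁, Matrix.toLin'_apply, hrep]
    · rfl
    · rw [LinearMap.toMatrix_apply, Matrix.fromBlocks_apply₂₁, Matrix.toLin'_apply, hrep']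
      rfl
    · rfl
  have h4 : A.charpoly = (LinearMap.toMatrix b b (Matrix.toLin' A)).charpoly := by
    rw [LinearMap.charpoly_toMatrix, Matrix.charpoly_toLin']
  rw [h4, h3, Matrix.charpoly_fromBlocks_zero₂₁]
  exact Dvd.intro _ rfl

/-- if the characteristic polynomial of `W` divides that of `A`, then the trace of `W` is an
eigenvalue of `A + det W A⁻¹` -/
private theorem root_of_dvd_closed {K : Type*} [Field K] [IsAlgClosed K] {n : ℕ}
    (W : Matrix (Fin 2) (Fin 2) K) (A A' : Matrix (Fin n) (Fin n) K) (hA : A' * A = 1)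
    (h : W.charpoly ∣ A.charpoly) :
    (W.trace • (1 : Matrix (Fin n) (Fin n) K) - (A + W.det • A')).det = 0 := by
  classical
  have hdeg : W.charpoly.degree ≠ 0 := by
    rw [Matrix.charpoly_degree_eq_dim, Fintype.card_fin]
    norm_num
  obtain ⟨α, hα⟩ := IsAlgClosed.exists_root W.charpoly hdeg
  have hα2 : α ^ 2 - W.trace * α + W.det = 0 := by
    have h1 := hα
    rw [Polynomial.IsRoot, Matrix.charpoly_fin_two] at h1
    simpa using h1
  have hg : A.charpoly.eval α = 0 := by
    obtain ⟨q, hq⟩ := h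
    rw [hq, Polynomial.eval_mul, hα.eq_zero, zero_mul]
  have hdet : (α • (1 : Matrix (Fin n) (Fin n) K) - A).det = 0 := by
    rw [← hg, Matrix.eval_charpoly]
    congr 1
    rw [Matrix.scalar_apply, ← Matrix.smul_one_eq_diagonal]
  obtain ⟨w, hw, hw'⟩ := Matrix.exists_mulVec_eq_zero_iff.mpr hdet
  have hAw : A.mulVec w = α • w := by
    rw [Matrix.sub_mulVec, Matrix.smul_mulVec, Matrix.one_mulVec, sub_eq_zero] at hw'
    exact hw'.symm
  have hw1 : w = α • A'.mulVec w := by
    have h1 : A'.mulVec (A.mulVec w) = w := by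
      rw [Matrix.mulVec_mulVec, hA, Matrix.one_mulVec]
    rw [hAw, Matrix.mulVec_smul] at h1
    exact h1.symm
  have hα0 : α ≠ 0 := by
    rintro rfl
    rw [zero_smul] at hw1
    exact hw hw1
  refine Matrix.exists_mulVec_eq_zero_iff.mp ⟨w, hw, ?_⟩
  rw [Matrix.sub_mulVec, Matrix.add_mulVec, Matrix.smul_mulVec, Matrix.smul_mulVec,
    Matrix.one_mulVec, hAw]
  have h2 : A'.mulVec w = α⁻¹ • w := by
    rw [hw1, smul_smul]
    rw [← hw1, inv_mul_cancel₀ hα0, one_smul]
  rw [h2, smul_smul, ← add_smul, ← sub_smul]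
  have h3 : W.trace - (α + W.det * α⁻¹) = 0 := by
    field_simp
    linear_combination -hα2
  rw [h3, zero_smul]

theorem root_of_dvd {K : Type*} [Field K] {n : ℕ}
    (W : Matrix (Fin 2) (Fin 2) K) (A A' : Matrix (Fin n) (Fin n) K) (hA : A' * A = 1)
    (h : W.charpoly ∣ A.charpoly) :
    (W.trace • (1 : Matrix (Fin n) (Fin n) K) - (A + W.det • A')).det = 0 := by
  let ψ : K →+* AlgebraicClosure K := algebraMap K (AlgebraicClosure K)
  have h1 := root_of_dvd_closed (W.map ψ) (A.map ψ) (A'.map ψ) (by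
    rw [← Matrix.map_mul, hA, Matrix.map_one _ (map_zero _) (map_one _)]) (by
    rw [Matrix.charpoly_map, Matrix.charpoly_map]
    exact Polynomial.map_dvd ψ h)
  apply ψ.injective
  rw [map_zero, ← h1, RingHom.map_det]
  congr 1
  have hd : (W.map ψ).det = ψ W.det := (RingHom.map_det ψ W).symm
  have ht : (W.map ψ).trace = ψ W.trace := by
    rw [Matrix.trace_fin_two, Matrix.trace_fin_two]
    simp
  ext p q
  by_cases hpq : p = q
  · subst hpq
    simp [RingHom.mapMatrix_apply, hd, ht]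
  · simp [RingHom.mapMatrix_apply, hd, hpq]

section

variable {M : Type} [Field M] [NumberField M] {Λ : Type} (ℓ : Λ → ℕ) [∀ v, Fact (ℓ v).Prime]
  {E : Λ → Type} [∀ v, NontriviallyNormedField (E v)] [∀ v, NormedAlgebra ℚ_[ℓ v] (E v)]
  (j : ∀ v, M →+* E v)
  {F : Λ → Type} [∀ v, NontriviallyNormedField (F v)] [∀ v, NormedAlgebra ℚ_[ℓ v] (F v)]
  (φ : ∀ v, E v →ₐ[ℚ_[ℓ v]] F v)
  {G : Type} [Group G] [TopologicalSpace G] (V : ∀ v, G →* GL (Fin 2) (E v)) {n : ℕ}
  (T : ∀ (l : ℕ) [Fact l.Prime], G →* GL (Fin n) ℚ_[l]) (f g : G → (𝓞 M)[X])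

/-- the matrix `T (ℓ v) r + det (V v r) T (ℓ v) r⁻¹` -/
noncomputable def Bm (v : Λ) (r : G) : Matrix (Fin n) (Fin n) (E v) :=
  (baseChange (E v) (T (ℓ v)) r : Matrix (Fin n) (Fin n) (E v)) +
    (V v r : Matrix (Fin 2) (Fin 2) (E v)).det •
      (baseChange (E v) (T (ℓ v)) r⁻¹ : Matrix (Fin n) (Fin n) (E v))

private theorem dvd_of_contained (v : Λ) (U : Subgroup G) (P : Matrix (Fin n) (Fin 2) (F v))
    (hP : Function.Injective P.mulVec)
    (hUP : ∀ g ∈ U, (baseChange (F v) (T (ℓ v)) g : Matrix (Fin n) (Fin n) (F v)) * P =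
      P * (extend (φ v : E v →+* F v) (V v) g : Matrix (Fin 2) (Fin 2) (F v)))
    (r : G) (hr : r ∈ U) (hm : Matches ℓ E j V T f g v r) :
    (f r).map (algebraMap (𝓞 M) M) ∣ (g r).map (algebraMap (𝓞 M) M) := by
  have h1 : (extend (φ v : E v →+* F v) (V v) r : Matrix (Fin 2) (Fin 2) (F v)).charpoly =
      (f r).map ((φ v : E v →+* F v).comp ((j v).comp (algebraMap (𝓞 M) M))) := by
    rw [← Polynomial.map_map, ← hm.1, ← Matrix.charpoly_map]
    rfl
  have h2 : (baseChange (F v) (T (ℓ v)) r : Matrix (Fin n) (Fin n) (F v)).charpoly =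
      (g r).map ((φ v : E v →+* F v).comp ((j v).comp (algebraMap (𝓞 M) M))) := by
    rw [← Polynomial.map_map, ← hm.2, ← Matrix.charpoly_map]
    congr 1
    ext a b
    exact ((φ v).commutes _).symm
  have h3 := charpoly_dvd _ _ P hP (hUP r hr)
  have e : ∀ q : (𝓞 M)[X], q.map ((φ v : E v →+* F v).comp ((j v).comp (algebraMap (𝓞 M) M))) =
      (q.map (algebraMap (𝓞 M) M)).map ((φ v : E v →+* F v).comp (j v)) := fun q => by
    rw [Polynomial.map_map, RingHom.comp_assoc]
  rw [h1, h2, e, e] at h3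
  exact (Polynomial.map_dvd_map' _).1 h3

theorem uniform_root [IsTopologicalGroup G]
    (hV : ∀ v, Continuous (V v)) (hT : ∀ (l : ℕ) [Fact l.Prime], Continuous (T l))
    (hD : ∀ Φ : Finset Λ, Dense {r | ∀ v ∈ Φ, Matches ℓ E j V T f g v r}) (v₀ : Λ)
    (h : ContainedAt ℓ φ V T v₀) :
    ∃ U : Subgroup G, IsOpen (U : Set G) ∧ ∀ r ∈ U, ∀ v,
      ((V v r : Matrix (Fin 2) (Fin 2) (E v)).trace • (1 : Matrix (Fin n) (Fin n) (E v)) -
        Bm ℓ V T v r).det = 0 := by
  classical
  obtain ⟨U, hU, P, hP, hUP⟩ := h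
  refine ⟨U, hU, fun r hr v => ?_⟩
  have hTc : Continuous fun r => (baseChange (E v) (T (ℓ v)) r : Matrix (Fin n) (Fin n) (E v)) := by
    have h1 : Continuous fun g => (T (ℓ v) g : Matrix (Fin n) (Fin n) ℚ_[ℓ v]) :=
      Units.continuous_val.comp (hT (ℓ v))
    refine continuous_matrix fun a b => ?_
    exact (continuous_algebraMap ℚ_[ℓ v] (E v)).comp ((continuous_apply_apply a b).comp h1)
  have hVc : Continuous fun r => (V v r : Matrix (Fin 2) (Fin 2) (E v)) :=
    Units.continuous_val.comp (hV v)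
  have hBc : Continuous fun r => Bm ℓ V T v r := by
    unfold Bm
    exact hTc.add (hVc.matrix_det.smul (hTc.comp continuous_inv))
  have hcont : Continuous fun r => ((V v r : Matrix (Fin 2) (Fin 2) (E v)).trace •
      (1 : Matrix (Fin n) (Fin n) (E v)) - Bm ℓ V T v r).det :=
    ((hVc.matrix_trace.smul continuous_const).sub hBc).matrix_det
  have hcl := isClosed_singleton.preimage hcont (t := ({0} : Set (E v)))
  have hdense := (hD {v₀, v}).open_subset_closure_inter hU
  have h2 : (U : Set G) ∩ {r | ∀ w ∈ ({v₀, v} : Finset Λ), Matches ℓ E j V T f g w r} ⊆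
      (fun r => ((V v r : Matrix (Fin 2) (Fin 2) (E v)).trace •
      (1 : Matrix (Fin n) (Fin n) (E v)) - Bm ℓ V T v r).det) ⁻¹' {0} := by
    rintro s ⟨hsU, hs⟩
    have hs0 := hs v₀ (by simp)
    have hs1 := hs v (by simp)
    have h3 := dvd_of_contained ℓ j φ V T f g v₀ U P hP hUP s hsU hs0
    have h4 : (V v s : Matrix (Fin 2) (Fin 2) (E v)).charpoly ∣
        (baseChange (E v) (T (ℓ v)) s : Matrix (Fin n) (Fin n) (E v)).charpoly := by
      rw [hs1.1, hs1.2, ← Polynomial.map_map, ← Polynomial.map_map]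
      exact Polynomial.map_dvd (j v) h3
    rw [Set.mem_preimage, Set.mem_singleton_iff]
    refine root_of_dvd _ _ _ ?_ h4
    rw [← Units.val_mul, ← map_mul, inv_mul_cancel, map_one, Units.val_one]
  exact (hcl.closure_subset_iff.mpr h2) (hdense hr)

end

end Pool.Agent.Helper21.Pred
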