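import Pool.Agent.Helper21.Pred.Null
import Pool.Agent.Helper21.Pred.Root
import Pool.Agent.Helper37.Ad.Res

/-!
# Predictions: the prediction which leaves at most `d` residue classes
-/

set_option autoImplicit false

open NumberField Polynomial MeasureTheory

namespace Pool.Agent.Helper21.Pred

open Pool.Agent.Helper37.Af Pool.Agent.Helper37.Fd Pool.Agent.Helper37.Ad Pool.Agent.Helper37.Ub

open Classical in
theorem few {p : ℕ} [Fact p.Prime] (E : Type) [NontriviallyNormedField E]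
    [IsUltrametricDist E] [NormedAlgebra ℚ_[p] E] [FiniteDimensional ℚ_[p] E] {n : ℕ}
    (B : Matrix (Fin n) (Fin n) E) (hB : ∀ s t, ‖B s t‖ ≤ 1) :
    (∀ R : Finset E, IsReps R →
      (R.filter fun x => ‖(x • (1 : Matrix (Fin n) (Fin n) E) - B).det‖ < 1).card ≤ n) ∧
    (∀ x y : E, ‖x‖ ≤ 1 → ‖y‖ ≤ 1 → ‖y - x‖ < 1 →
      (y • (1 : Matrix (Fin n) (Fin n) E) - B).det = 0 →
      ‖(x • (1 : Matrix (Fin n) (Fin n) E) - B).det‖ < 1) := by
  obtain ⟨O, k, _, _, _, π, hO, -, hπ, -⟩ := exists_residue (p := p) E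
  let Y : Matrix (Fin n) (Fin n) O := Matrix.of fun s t => ⟨B s t, (hO _).2 (hB s t)⟩
  have hY : B = Y.map O.subtype := by
    ext s t
    rfl
  have key : ∀ x : O, (((x : E)) • (1 : Matrix (Fin n) (Fin n) E) - B).det =
      ((Y.charpoly.eval x : O) : E) := by
    intro x
    have h1 : (((x : E)) • (1 : Matrix (Fin n) (Fin n) E) - B).det = B.charpoly.eval (x : E) := by
      rw [Matrix.eval_charpoly]
      congr 1
      rw [Matrix.scalar_apply, ← Matrix.smul_one_eq_diagonal]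
    rw [h1, hY, Matrix.charpoly_map]
    exact Polynomial.eval_map_apply O.subtype x
  have key2 : ∀ x : O, ‖(((x : E)) • (1 : Matrix (Fin n) (Fin n) E) - B).det‖ < 1 ↔
      (Y.map π).charpoly.eval (π x) = 0 := by
    intro x
    rw [key, ← hπ, Matrix.charpoly_map, Polynomial.eval_map_apply]
  constructor
  · intro R hR
    have hmem : ∀ x ∈ R, x ∈ O := fun x hx => (hO x).2 (hR.1 x hx)
    have h1 : (R.filter fun x => ‖(x • (1 : Matrix (Fin n) (Fin n) E) - B).det‖ < 1).card ≤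
        (Y.map π).charpoly.roots.toFinset.card := by
      refine Finset.card_le_card_of_injOn
        (fun x => if hx : x ∈ O then π ⟨x, hx⟩ else 0) ?_ ?_
      · intro x hx
        obtain ⟨hx1, hx2⟩ := Finset.mem_filter.1 (Finset.mem_coe.1 hx)
        have hxO := hmem x hx1
        rw [Finset.mem_coe, Multiset.mem_toFinset, Polynomial.mem_roots
          (Matrix.charpoly_monic _).ne_zero]
        simp only [hxO, dite_true]
        exact (key2 ⟨x, hxO⟩).1 hx2
      · intro x hx y hy hxy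
        obtain ⟨hx1, -⟩ := Finset.mem_filter.1 (Finset.mem_coe.1 hx)
        obtain ⟨hy1, -⟩ := Finset.mem_filter.1 (Finset.mem_coe.1 hy)
        have hxO := hmem x hx1
        have hyO := hmem y hy1
        simp only [hxO, hyO, dite_true] at hxy
        have h2 : π (⟨x, hxO⟩ - ⟨y, hyO⟩) = 0 := by
          rw [map_sub, hxy, sub_self]
        have h3 : ‖x - y‖ < 1 := (hπ _).1 h2
        obtain ⟨z, -, hz⟩ := hR.2 x (hR.1 x hx1)
        rw [hz x ⟨hx1, by rw [sub_self, norm_zero]; exact one_pos⟩, hz y ⟨hy1, h3⟩]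
    refine h1.trans ((Multiset.toFinset_card_le _).trans ((Polynomial.card_roots' _).trans ?_))
    rw [Matrix.charpoly_natDegree_eq_dim, Fintype.card_fin]
  · intro x y hx hy hxy h0
    have hxO := (hO x).2 hx
    have hyO := (hO y).2 hy
    have h1 := (key2 ⟨y, hyO⟩).1 (by
      show ‖(y • (1 : Matrix (Fin n) (Fin n) E) - B).det‖ < 1
      rw [h0, norm_zero]
      exact one_pos)
    have h2 : π ⟨y, hyO⟩ = π ⟨x, hxO⟩ := by
      rw [← sub_eq_zero, ← map_sub, hπ]
      exact hxy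
    rw [h2] at h1
    exact (key2 ⟨x, hxO⟩).2 h1

theorem prime_le_card {p : ℕ} [Fact p.Prime] (E : Type) [NontriviallyNormedField E]
    [IsUltrametricDist E] [NormedAlgebra ℚ_[p] E] [FiniteDimensional ℚ_[p] E] (R : Finset E)
    (hR : IsReps R) : p ≤ R.card := by
  classical
  obtain ⟨O, k, _, _, _, π, hO, -, hπ, -⟩ := exists_residue (p := p) E
  have hnat : ∀ i : ℕ, ‖(i : E)‖ ≤ 1 := fun i => (hO _).1 (natCast_mem O i)
  have hex : ∀ i : ℕ, ∃ x, x ∈ R ∧ ‖(i : E) - x‖ < 1 := fun i => (hR.2 _ (hnat i)).exists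
  choose x hx1 hx2 using hex
  have h1 : (Finset.range p).card ≤ R.card := by
    refine Finset.card_le_card_of_injOn x (fun i _ => hx1 i) ?_
    intro i hi i' hi' h
    have hi := Finset.mem_range.1 (Finset.mem_coe.1 hi)
    have hi' := Finset.mem_range.1 (Finset.mem_coe.1 hi')
    have h2 := hx2 i
    have h3 := hx2 i'
    rw [← h] at h3
    have h4 : ‖((((i : O) - (i' : O) : O)) : E)‖ < 1 := by
      have h5 : ((((i : O) - (i' : O) : O)) : E) = ((i : E) - x i) + -((i' : E) - x i) := by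
        push_cast
        ring
      rw [h5]
      exact (IsUltrametricDist.norm_add_le_max _ _).trans_lt
        (max_lt h2 (by rw [norm_neg]; exact h3))
    have h6 := (hπ _).2 h4
    rw [map_sub, map_natCast, map_natCast, sub_eq_zero] at h6
    have h7 := (CharP.natCast_eq_natCast k p).1 h6
    exact Nat.ModEq.eq_of_lt_of_lt h7 hi hi'
  rwa [Finset.card_range] at h1

section

variable {M : Type} [Field M] [NumberField M] {Λ : Type} (ℓ : Λ → ℕ) [∀ v, Fact (ℓ v).Prime]
  {E : Λ → Type} [∀ v, NontriviallyNormedField (E v)] [∀ v, IsUltrametricDist (E v)]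
  [∀ v, NormedAlgebra ℚ_[ℓ v] (E v)] [∀ v, FiniteDimensional ℚ_[ℓ v] (E v)]
  (j : ∀ v, M →+* E v)
  {F : Λ → Type} [∀ v, NontriviallyNormedField (F v)] [∀ v, NormedAlgebra ℚ_[ℓ v] (F v)]
  (φ : ∀ v, E v →ₐ[ℚ_[ℓ v]] F v)
  {G : Type} [Group G] [TopologicalSpace G] (V : ∀ v, G →* GL (Fin 2) (E v)) {n : ℕ}
  (T : ∀ (l : ℕ) [Fact l.Prime], G →* GL (Fin n) ℚ_[l]) (f g : G → (𝓞 M)[X])
  (R : ∀ v, Finset (E v))

theorem exists_small_prediction [IsTopologicalGroup G] [MeasurableSpace G] [BorelSpace G]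
    (hR : ∀ v, IsReps (R v))
    (hV : ∀ v, Continuous (V v)) (hT : ∀ (l : ℕ) [Fact l.Prime], Continuous (T l))
    (hVi : ∀ v x s t, ‖(V v x : Matrix (Fin 2) (Fin 2) (E v)) s t‖ ≤ 1)
    (hTi : ∀ (l : ℕ) [Fact l.Prime] (x : G) (s t : Fin n),
      ‖(T l x : Matrix (Fin n) (Fin n) ℚ_[l]) s t‖ ≤ 1)
    (hD : ∀ Φ : Finset Λ, Dense {r | ∀ v ∈ Φ, Matches ℓ E j V T f g v r}) (v₀ : Λ)
    (h : ContainedAt ℓ φ V T v₀) :
    ∃ X : ∀ v, G → Finset (E v), IsPrediction V T R (fun _ => ∅) X ∧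
      ∃ U : Subgroup G, IsOpen (U : Set G) ∧ ∀ r ∈ U, ∀ v,
        (R v).card ≤ (X v r).card + n ∧ ¬ Wrong V X r v := by
  classical
  obtain ⟨U, hU, hroot⟩ := uniform_root ℓ j φ V T f g hV hT hD v₀ h
  have hBi : ∀ v r s t, ‖Bm ℓ V T v r s t‖ ≤ 1 := by
    intro v r s t
    have hbc : ∀ x, ‖(baseChange (E v) (T (ℓ v)) x : Matrix (Fin n) (Fin n) (E v)) s t‖ ≤ 1 := by
      intro x
      show ‖algebraMap ℚ_[ℓ v] (E v) ((T (ℓ v) x : Matrix (Fin n) (Fin n) ℚ_[ℓ v]) s t)‖ ≤ 1
      rw [norm_algebraMap']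
      exact hTi (ℓ v) x s t
    unfold Bm
    rw [Matrix.add_apply, Matrix.smul_apply, smul_eq_mul]
    refine (IsUltrametricDist.norm_add_le_max _ _).trans (max_le (hbc r) ?_)
    rw [norm_mul, norm_det_eq_one (V v) (hVi v) r, one_mul]
    exact hbc r⁻¹
  have hBc : ∀ v, Continuous fun r => Bm ℓ V T v r := by
    intro v
    have hTc : Continuous fun r =>
        (baseChange (E v) (T (ℓ v)) r : Matrix (Fin n) (Fin n) (E v)) := by
      have h1 : Continuous fun g => (T (ℓ v) g : Matrix (Fin n) (Fin n) ℚ_[ℓ v]) :=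
        Units.continuous_val.comp (hT (ℓ v))
      refine continuous_matrix fun a b => ?_
      exact (continuous_algebraMap ℚ_[ℓ v] (E v)).comp ((continuous_apply_apply a b).comp h1)
    have hVc : Continuous fun r => (V v r : Matrix (Fin 2) (Fin 2) (E v)) :=
      Units.continuous_val.comp (hV v)
    unfold Bm
    exact hTc.add (hVc.matrix_det.smul (hTc.comp continuous_inv))
  let X : ∀ v, G → Finset (E v) := fun v r =>
    (R v).filter fun x => ¬ ‖(x • (1 : Matrix (Fin n) (Fin n) (E v)) - Bm ℓ V T v r).det‖ < 1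
  have hXm : ∀ v r x, x ∈ X v r ↔
      x ∈ R v ∧ ¬ ‖(x • (1 : Matrix (Fin n) (Fin n) (E v)) - Bm ℓ V T v r).det‖ < 1 :=
    fun v r x => Finset.mem_filter
  refine ⟨X, ⟨fun v r => Finset.filter_subset _ _, ?_, ?_⟩, U, hU, ?_⟩
  · intro v x
    have h1 : {r | x ∈ X v r} = {r | x ∈ R v ∧
        ¬ ‖(x • (1 : Matrix (Fin n) (Fin n) (E v)) - Bm ℓ V T v r).det‖ < 1} := by
      ext r
      exact hXm v r x
    rw [h1]
    have h2 : Continuous fun r =>
        ‖(x • (1 : Matrix (Fin n) (Fin n) (E v)) - Bm ℓ V T v r).det‖ :=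
      ((continuous_const.sub (hBc v)).matrix_det).norm
    have h3 : MeasurableSet {r |
        ‖(x • (1 : Matrix (Fin n) (Fin n) (E v)) - Bm ℓ V T v r).det‖ < 1} :=
      (isOpen_lt h2 continuous_const).measurableSet
    exact (MeasurableSet.const (x ∈ R v)).inter h3.compl
  · intro v r s h1 h2 _
    have h3 : Bm ℓ V T v r = Bm ℓ V T v s := by
      have h4 : baseChange (E v) (T (ℓ v)) r = baseChange (E v) (T (ℓ v)) s := by
        unfold baseChange
        rw [MonoidHom.comp_apply, MonoidHom.comp_apply, h1 (ℓ v)]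
      unfold Bm
      rw [map_inv, map_inv, h4, h2 v]
    show (R v).filter _ = (R v).filter _
    rw [h3]
  · intro r hr v
    constructor
    · have h1 := (few (p := ℓ v) (E v) (Bm ℓ V T v r) (hBi v r)).1 (R v) (hR v)
      have h2 := Finset.card_filter_add_card_filter_not (s := R v)
        (fun x => ‖(x • (1 : Matrix (Fin n) (Fin n) (E v)) - Bm ℓ V T v r).det‖ < 1)
      show (R v).card ≤ ((R v).filter fun x =>
        ¬ ‖(x • (1 : Matrix (Fin n) (Fin n) (E v)) - Bm ℓ V T v r).det‖ < 1).card + n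
      omega
    · rintro ⟨x, hx, hx'⟩
      obtain ⟨hx1, hx2⟩ := (hXm v r x).1 hx
      refine hx2 ((few (p := ℓ v) (E v) (Bm ℓ V T v r) (hBi v r)).2 x
        (V v r : Matrix (Fin 2) (Fin 2) (E v)).trace ((hR v).1 x hx1) ?_ hx' (hroot r hr v))
      rw [Matrix.trace_fin_two]
      exact (IsUltrametricDist.norm_add_le_max _ _).trans (max_le (hVi v r 0 0) (hVi v r 1 1))

omit [∀ v, NormedAlgebra ℚ_[ℓ v] (E v)] in
theorem finite_small [∀ v, NormedAlgebra ℚ_[ℓ v] (E v)] [∀ v, FiniteDimensional ℚ_[ℓ v] (E v)]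
    (hfin : ∀ l, {v | ℓ v = l}.Finite) (hR : ∀ v, IsReps (R v)) (Q : ℕ) :
    {v | (R v).card < Q}.Finite := by
  refine Set.Finite.subset (Set.Finite.biUnion (Set.finite_Iio Q) fun l _ => hfin l) ?_
  intro v hv
  rw [Set.mem_iUnion₂]
  exact ⟨ℓ v, lt_of_le_of_lt (prime_le_card (p := ℓ v) (E v) (R v) (hR v)) hv, rfl⟩

omit [∀ v, NormedAlgebra ℚ_[ℓ v] (E v)] in
theorem positive_of_small [Infinite Λ] [∀ v, NormedAlgebra ℚ_[ℓ v] (E v)]
    [∀ v, FiniteDimensional ℚ_[ℓ v] (E v)] [IsTopologicalGroup G] [MeasurableSpace G]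
    [BorelSpace G] (μ : Measure G) [μ.IsHaarMeasure] (hfin : ∀ l, {v | ℓ v = l}.Finite)
    (hR : ∀ v, IsReps (R v)) (X : ∀ v, G → Finset (E v))
    (hX : IsPrediction V T R (fun _ => ∅) X) (U : Subgroup G) (hU : IsOpen (U : Set G))
    (h : ∀ r ∈ U, ∀ v, (R v).card ≤ (X v r).card + n ∧ ¬ Wrong V X r v) :
    ∃ (e : ℕ ≃ Λ) (c : ℝ) (X : ∀ v, G → Finset (E v)), c < 1 ∧
      IsPrediction V T R (fun v => {w | e.symm w < e.symm v}) X ∧
      μ {r | BeatsChance V R X e c r} ≠ 0 := by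
  classical
  have hcount : Countable Λ := by
    rw [← Set.countable_univ_iff]
    have h1 : (Set.univ : Set Λ) = ⋃ l : ℕ, {v | ℓ v = l} := by
      ext v
      simp
    rw [h1]
    exact Set.countable_iUnion fun l => (hfin l).countable
  obtain ⟨e⟩ := nonempty_equiv_of_countable (α := ℕ) (β := Λ)
  refine ⟨e, 0, X, one_pos, ⟨hX.subset, hX.measurable, fun v r s h1 h2 _ =>
    hX.determined v r s h1 h2 (fun w hw => absurd hw (Set.notMem_empty w))⟩, ?_⟩
  have hsub : (U : Set G) ⊆ {r | BeatsChance V R X e 0 r} := by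
    intro r hr
    refine ⟨?_, ?_⟩
    · rw [← not_summable_iff_tendsto_nat_atTop_of_nonneg
        (f := fun i => share R X (e i) r) (fun i => share_nn R X (e i) r)]
      intro hs
      have h1 := hs.tendsto_atTop_zero
      have h2 : ∀ᶠ i in Filter.atTop, share R X (e i) r < 1 / 2 :=
        h1.eventually_lt_const (by norm_num)
      have h3 : {i : ℕ | (R (e i)).card < 2 * n + 1}.Finite :=
        Set.Finite.preimage e.injective.injOn (finite_small ℓ R hfin hR (2 * n + 1))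
      have h4 : ∀ᶠ i in Filter.atTop, ¬ (R (e i)).card < 2 * n + 1 := by
        rw [← Nat.cofinite_eq_atTop]
        exact h3.eventually_cofinite_notMem
      obtain ⟨i, hi1, hi2⟩ := (h2.and h4).exists
      have h5 := (h r hr (e i)).1
      have h6 : (R (e i)).card ≤ 2 * (X (e i) r).card := by omega
      have h7 : (0 : ℝ) < ((R (e i)).card : ℝ) := by
        exact_mod_cast (show 0 < (R (e i)).card by omega)
      rw [share, div_lt_iff₀ h7] at hi1
      have h8 : ((R (e i)).card : ℝ) ≤ 2 * ((X (e i) r).card : ℝ) := by exact_mod_cast h6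
      linarith
    · refine Filter.Eventually.frequently (Filter.Eventually.of_forall fun N => ?_)
      have h1 : errors V X e N r = 0 := by
        unfold errors
        rw [Finset.card_eq_zero, Finset.filter_eq_empty_iff]
        exact fun i _ => (h r hr (e i)).2
      rw [h1]
      simp
  intro h0
  exact (hU.measure_pos μ ⟨1, U.one_mem⟩).ne' (measure_mono_null hsub h0)

end

end Pool.Agent.Helper21.Pred
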