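import Pool.Agent.Helper21.Pred.Few
import Pool.Agent.Helper37.Ff.Fin

/-!
# Predictions: the equivalent conditions

`predictions` is the zero-one law (four equivalent conditions), `predictions_and_fields` adds the
conditions of the theorem on Frobenius fields.
-/

set_option autoImplicit false

open NumberField Polynomial MeasureTheory

namespace Pool.Agent.Helper21.Pred

open Pool.Agent.Helper37.Af Pool.Agent.Helper37.Fd Pool.Agent.Helper37.Ad Pool.Agent.Helper37.Ub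
  Pool.Agent.Helper37.Ff

theorem predictions {M : Type} [Field M] [NumberField M] {Λ : Type} [Infinite Λ]
    (ℓ : Λ → ℕ) [∀ v, Fact (ℓ v).Prime] (hfin : ∀ l, {v | ℓ v = l}.Finite)
    (E : Λ → Type) [∀ v, NontriviallyNormedField (E v)] [∀ v, IsUltrametricDist (E v)]
    [∀ v, NormedAlgebra ℚ_[ℓ v] (E v)] [∀ v, FiniteDimensional ℚ_[ℓ v] (E v)] (a : ℕ)
    (ha : ∀ v, Module.finrank ℚ_[ℓ v] (E v) ≤ a) (j : ∀ v, M →+* E v)
    (R : ∀ v, Finset (E v)) (hR : ∀ v, IsReps (R v))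
    (F : Λ → Type) [∀ v, NontriviallyNormedField (F v)] [∀ v, IsUltrametricDist (F v)]
    [∀ v, NormedAlgebra ℚ_[ℓ v] (F v)] [∀ v, FiniteDimensional ℚ_[ℓ v] (F v)]
    (φ : ∀ v, E v →ₐ[ℚ_[ℓ v]] F v)
    {G : Type} [Group G] [TopologicalSpace G] [IsTopologicalGroup G] [CompactSpace G]
    [TotallyDisconnectedSpace G] [MeasurableSpace G] [BorelSpace G] (μ : Measure G)
    [μ.IsHaarMeasure]
    (V : ∀ v, G →* GL (Fin 2) (E v)) (hV : ∀ v, Continuous (V v))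
    (hVi : ∀ v x s t, ‖(V v x : Matrix (Fin 2) (Fin 2) (E v)) s t‖ ≤ 1)
    (hopen : AdelicallyOpen ⊤ V) {d : ℕ} (T : ∀ (l : ℕ) [Fact l.Prime], G →* GL (Fin d) ℚ_[l])
    (hT : IsSystem ℓ φ V T) (f g : G → (𝓞 M)[X]) (hD : AlmostMatching ℓ j V T f g) :
    List.TFAE [
      ∃ v, ContainedAt ℓ φ V T v,
      ∀ v, ContainedAt ℓ φ V T v,
      ∃ X : ∀ v, G → Finset (E v), IsPrediction V T R (fun _ => ∅) X ∧
        ∃ U : Subgroup G, IsOpen (U : Set G) ∧ ∀ r ∈ U, ∀ v,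
          (R v).card ≤ (X v r).card + d ∧ ¬ Wrong V X r v,
      ∃ (e : ℕ ≃ Λ) (c : ℝ) (X : ∀ v, G → Finset (E v)), c < 1 ∧
        IsPrediction V T R (fun v => {w | e.symm w < e.symm v}) X ∧
        μ {r | BeatsChance V R X e c r} ≠ 0] := by
  have hA := adelic ℓ E j F φ V T f g hfin a ha hV hVi hT.continuous
    (fun l _ y s t => hT.integral l y s t) hopen hT.semisimple hT.generated
    {r | {v | ¬ Matches ℓ E j V T f g v r}.Finite}
    (fun Φ => (hD Φ).mono fun r hr => ⟨hr.2, hr.1⟩) (fun r hr => hr)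
  have hD' : ∀ Φ : Finset Λ, Dense {r | ∀ v ∈ Φ, Matches ℓ E j V T f g v r} :=
    fun Φ => (hD Φ).mono fun r hr => hr.1
  tfae_have 1 → 2 := (hA.out 0 1).1
  tfae_have 2 → 1 := (hA.out 1 0).1
  tfae_have 1 → 3 := by
    rintro ⟨v₀, h⟩
    exact exists_small_prediction ℓ j φ V T f g R hR hV hT.continuous hVi
      (fun l _ y s t => hT.integral l y s t) hD' v₀ h
  tfae_have 3 → 4 := by
    rintro ⟨X, hX, U, hU, h⟩
    exact positive_of_small ℓ V T R μ hfin hR X hX U hU h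
  tfae_have 4 → 1 := by
    rintro ⟨e, c, X, hc, hX, hμ⟩
    by_contra hnot
    have hH : AdelicallyOpen (commonKernel T) V := by
      by_contra h
      exact hnot ((hA.out 2 0).1 h)
    obtain ⟨S, ε, -, hbig, -⟩ := full_of_open V _ hH
    exact hμ (null V T R X μ e hR hX hV hVi S hbig (finite_small ℓ R hfin hR) c hc)
  tfae_finish

theorem predictions_and_fields {M : Type} [Field M] [NumberField M] {Λ : Type} [Nonempty Λ]
    (ℓ : Λ → ℕ) [∀ v, Fact (ℓ v).Prime] (hfin : ∀ l, {v | ℓ v = l}.Finite)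
    (E : Λ → Type) [∀ v, NontriviallyNormedField (E v)] [∀ v, IsUltrametricDist (E v)]
    [∀ v, NormedAlgebra ℚ_[ℓ v] (E v)] [∀ v, FiniteDimensional ℚ_[ℓ v] (E v)] (a : ℕ)
    (ha : ∀ v, Module.finrank ℚ_[ℓ v] (E v) ≤ a) (j : ∀ v, M →+* E v) (habd : Abundant j)
    (R : ∀ v, Finset (E v)) (hR : ∀ v, IsReps (R v))
    (F : Λ → Type) [∀ v, NontriviallyNormedField (F v)] [∀ v, IsUltrametricDist (F v)]
    [∀ v, NormedAlgebra ℚ_[ℓ v] (F v)] [∀ v, FiniteDimensional ℚ_[ℓ v] (F v)]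
    (φ : ∀ v, E v →ₐ[ℚ_[ℓ v]] F v)
    {G : Type} [Group G] [TopologicalSpace G] [IsTopologicalGroup G] [CompactSpace G]
    [TotallyDisconnectedSpace G] [MeasurableSpace G] [BorelSpace G] (μ : Measure G)
    [μ.IsHaarMeasure]
    (V : ∀ v, G →* GL (Fin 2) (E v)) (hV : ∀ v, Continuous (V v))
    (hVi : ∀ v x s t, ‖(V v x : Matrix (Fin 2) (Fin 2) (E v)) s t‖ ≤ 1)
    (hopen : AdelicallyOpen ⊤ V) {n : ℕ} (T : ∀ (l : ℕ) [Fact l.Prime], G →* GL (Fin n) ℚ_[l])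
    (f g : G → (𝓞 M)[X]) (hT : IsSystem ℓ φ V T) (hD : AlmostMatching ℓ j V T f g) :
    List.TFAE [
      ∃ v, ContainedAt ℓ φ V T v,
      ∀ v, ContainedAt ℓ φ V T v,
      ∀ v, ∃ U : Subgroup G, IsOpen (U : Set G) ∧
        ∀ r ∈ U, Matches ℓ E j V T f g v r → FieldIn M (f r) (g r),
      ∃ (L : Type) (_ : Field L) (_ : Algebra M L) (_ : FiniteDimensional M L),
        OftenIn ℓ j V T μ L f g,
      ∃ X : ∀ v, G → Finset (E v), IsPrediction V T R (fun _ => ∅) X ∧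
        ∃ U : Subgroup G, IsOpen (U : Set G) ∧ ∀ r ∈ U, ∀ v,
          (R v).card ≤ (X v r).card + n ∧ ¬ Wrong V X r v,
      ∃ (e : ℕ ≃ Λ) (c : ℝ) (X : ∀ v, G → Finset (E v)), c < 1 ∧
        IsPrediction V T R (fun v => {w | e.symm w < e.symm v}) X ∧
        μ {r | BeatsChance V R X e c r} ≠ 0] := by
  have hinf : Infinite Λ := by
    have h1 := habd 1 one_ne_zero
    exact Set.infinite_univ_iff.1 (h1.mono (Set.subset_univ _))
  have hff := frobenius_fields ℓ hfin E a ha j habd F φ μ V hV hVi hopen T f g hT hD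
  have hp := predictions ℓ hfin E a ha j R hR F φ μ V hV hVi hopen T hT f g hD
  tfae_have 1 → 2 := (hff.out 0 1).1
  tfae_have 2 → 3 := (hff.out 1 2).1
  tfae_have 3 → 4 := (hff.out 2 3).1
  tfae_have 4 → 1 := (hff.out 3 0).1
  tfae_have 1 → 5 := (hp.out 0 2).1
  tfae_have 5 → 6 := (hp.out 2 3).1
  tfae_have 6 → 1 := (hp.out 3 0).1
  tfae_finish

end Pool.Agent.Helper21.Pred
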