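import Pool.Agent.Helper21.Pred.Cnt
import Pool.Agent.Helper37.Ad.Base

/-!
# Predictions: the supermartingale inequality

The function `(1 - b) ^ (number of errors) * exp (κ * sum of the shares)` over a finite set of places
has integral at most `μ G`, if `κ ≤ b (1 - 1 / q_v)` for all these places.
-/

set_option autoImplicit false

open MeasureTheory

namespace Pool.Agent.Helper21.Pred

open Pool.Agent.Helper37.Ad

section

variable {Λ : Type*} {E : Λ → Type*} [∀ v, NontriviallyNormedField (E v)]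
  [∀ v, IsUltrametricDist (E v)] {G : Type*} [Group G]
  (V : ∀ v, G →* GL (Fin 2) (E v)) {d : ℕ}
  (T : ∀ (l : ℕ) [Fact l.Prime], G →* GL (Fin d) ℚ_[l]) (R : ∀ v, Finset (E v))
  {P : Λ → Set Λ} (X : ∀ v, G → Finset (E v)) (b κ : ℝ)

open Classical in
/-- the factor at `v` -/
noncomputable def wt (v : Λ) (r : G) : ENNReal :=
  ENNReal.ofReal ((if Wrong V X r v then 1 - b else 1) * Real.exp (κ * share R X v r))

omit [∀ v, NontriviallyNormedField (E v)] [∀ v, IsUltrametricDist (E v)] [Group G] in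
theorem share_nonneg (v : Λ) (r : G) : 0 ≤ share R X v r :=
  div_nonneg (Nat.cast_nonneg _) (Nat.cast_nonneg _)

theorem norm_det_eq_one {E : Type*} [NontriviallyNormedField E] [IsUltrametricDist E]
    {G : Type*} [Group G] (W : G →* GL (Fin 2) E)
    (hi : ∀ g i j, ‖(W g : Matrix (Fin 2) (Fin 2) E) i j‖ ≤ 1) (g : G) :
    ‖(W g : Matrix (Fin 2) (Fin 2) E).det‖ = 1 := by
  have h1 : ∀ g, ‖(W g : Matrix (Fin 2) (Fin 2) E).det‖ ≤ 1 := by
    intro g
    rw [Matrix.det_fin_two, sub_eq_add_neg]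
    refine (IsUltrametricDist.norm_add_le_max _ _).trans (max_le ?_ ?_)
    · rw [norm_mul]
      exact mul_le_one₀ (hi g 0 0) (norm_nonneg _) (hi g 1 1)
    · rw [norm_neg, norm_mul]
      exact mul_le_one₀ (hi g 0 1) (norm_nonneg _) (hi g 1 0)
  have h2 : (W g : Matrix (Fin 2) (Fin 2) E).det * (W g⁻¹ : Matrix (Fin 2) (Fin 2) E).det = 1 := by
    rw [← Matrix.det_mul, ← Units.val_mul, ← map_mul, mul_inv_cancel, map_one, Units.val_one,
      Matrix.det_one]
  have h3 : ‖(W g : Matrix (Fin 2) (Fin 2) E).det‖ *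
      ‖(W g⁻¹ : Matrix (Fin 2) (Fin 2) E).det‖ = 1 := by
    rw [← norm_mul, h2, norm_one]
  refine le_antisymm (h1 g) ?_
  calc (1 : ℝ) = ‖(W g : Matrix (Fin 2) (Fin 2) E).det‖ *
      ‖(W g⁻¹ : Matrix (Fin 2) (Fin 2) E).det‖ := h3.symm
    _ ≤ ‖(W g : Matrix (Fin 2) (Fin 2) E).det‖ * 1 :=
        mul_le_mul_of_nonneg_left (h1 _) (norm_nonneg _)
    _ = _ := mul_one _

private theorem real_aux (b κ q k h : ℝ) (hb : 0 ≤ b) (hq : 2 ≤ q) (hκ : κ ≤ b * (1 - 1 / q))
    (hk : 0 ≤ k) (hh : (q - 1) * k ≤ h) :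
    (q ^ 2 - b * h) * Real.exp (κ * (k / q)) ≤ q ^ 2 := by
  have hq0 : 0 < q := by linarith
  have h1 : q ^ 2 - b * h ≤ q ^ 2 * (1 - κ * (k / q)) := by
    have h2 : b * ((q - 1) * k) ≤ b * h := mul_le_mul_of_nonneg_left hh hb
    have h3 : q ^ 2 * (κ * (k / q)) ≤ q ^ 2 * (b * (1 - 1 / q) * (k / q)) :=
      mul_le_mul_of_nonneg_left (mul_le_mul_of_nonneg_right hκ (div_nonneg hk hq0.le))
        (by positivity)
    have h4 : q ^ 2 * (b * (1 - 1 / q) * (k / q)) = b * ((q - 1) * k) := by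
      field_simp
    rw [h4] at h3
    linarith
  have h3 : 1 - κ * (k / q) ≤ Real.exp (-(κ * (k / q))) := Real.one_sub_le_exp_neg _
  calc (q ^ 2 - b * h) * Real.exp (κ * (k / q))
      ≤ q ^ 2 * (1 - κ * (k / q)) * Real.exp (κ * (k / q)) :=
        mul_le_mul_of_nonneg_right h1 (Real.exp_pos _).le
    _ ≤ q ^ 2 * Real.exp (-(κ * (k / q))) * Real.exp (κ * (k / q)) := by
        refine mul_le_mul_of_nonneg_right ?_ (Real.exp_pos _).le
        exact mul_le_mul_of_nonneg_left h3 (by positivity)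
    _ = q ^ 2 := by
        rw [mul_assoc, ← Real.exp_add, neg_add_cancel, Real.exp_zero, mul_one]

/-- the pointwise average over the elements `h p` -/
theorem sum_wt_le (hb : 0 ≤ b) (hb1 : b ≤ 1) (hR : ∀ v, IsReps (R v))
    (hVi : ∀ v x s t, ‖(V v x : Matrix (Fin 2) (Fin 2) (E v)) s t‖ ≤ 1)
    (hsub : ∀ v r, X v r ⊆ R v) (a : Λ) (hκ : κ ≤ b * (1 - 1 / ((R a).card : ℝ)))
    (h : E a × E a → G) (r : G)
    (hX : ∀ p ∈ R a ×ˢ R a, X a (h p * r) = X a r)
    (hh : ∀ p ∈ R a ×ˢ R a, (V a (h p) : Matrix (Fin 2) (Fin 2) (E a)) = ul p.1 p.2) :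
    ∑ p ∈ R a ×ˢ R a, wt V R X b κ a (h p * r) ≤ ((R a ×ˢ R a).card : ENNReal) := by
  classical
  let H := (R a ×ˢ R a).filter fun p => Wrong V X (h p * r) a
  have hV : ∀ p ∈ R a ×ˢ R a, (V a (h p * r) : Matrix (Fin 2) (Fin 2) (E a)) =
      ul p.1 p.2 * (V a r : Matrix (Fin 2) (Fin 2) (E a)) := by
    intro p hp
    rw [map_mul, Units.val_mul, hh p hp]
  have hH : ((R a).card - 1) * (X a r).card ≤ H.card := by
    refine count_hits (hR a) (V a r : Matrix (Fin 2) (Fin 2) (E a)) (hVi a r)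
      (norm_det_eq_one (V a) (hVi a) r) (X a r) (hsub a r) H fun p => ?_
    rw [Finset.mem_filter, Finset.mem_product]
    constructor
    · rintro ⟨⟨h1, h2⟩, x, hx, hx'⟩
      have hp : p ∈ R a ×ˢ R a := Finset.mem_product.2 ⟨h1, h2⟩
      rw [hX p hp] at hx
      rw [hV p hp] at hx'
      exact ⟨h1, h2, x, hx, hx'⟩
    · rintro ⟨h1, h2, x, hx, hx'⟩
      have hp : p ∈ R a ×ˢ R a := Finset.mem_product.2 ⟨h1, h2⟩
      refine ⟨⟨h1, h2⟩, x, ?_, ?_⟩
      · rw [hX p hp]
        exact hx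
      · rw [hV p hp]
        exact hx'
  have hq := two_le_card (hR a)
  have e1 : ∑ p ∈ R a ×ˢ R a, wt V R X b κ a (h p * r) =
      ENNReal.ofReal ((((R a).card : ℝ) ^ 2 - b * (H.card : ℝ)) *
        Real.exp (κ * (((X a r).card : ℝ) / ((R a).card : ℝ)))) := by
    have e2 : ∀ p ∈ R a ×ˢ R a, wt V R X b κ a (h p * r) =
        ENNReal.ofReal ((1 - b * (if Wrong V X (h p * r) a then 1 else 0)) *
          Real.exp (κ * (((X a r).card : ℝ) / ((R a).card : ℝ)))) := by
      intro p hp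
      rw [wt, share, hX p hp]
      congr 2
      split_ifs <;> ring
    rw [Finset.sum_congr rfl e2, ← ENNReal.ofReal_sum_of_nonneg]
    · congr 1
      rw [← Finset.sum_mul, Finset.sum_sub_distrib, Finset.sum_const, ← Finset.mul_sum,
        ← Finset.sum_filter, Finset.sum_const, Finset.card_product, nsmul_eq_mul, nsmul_eq_mul,
        mul_one, mul_one]
      have hHc : (((R a ×ˢ R a).filter fun p => Wrong V X (h p * r) a).card : ℝ) =
          (H.card : ℝ) := rfl
      rw [hHc]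
      push_cast
      ring
    · intro p _
      refine mul_nonneg ?_ (Real.exp_pos _).le
      split_ifs <;> linarith
  rw [e1, Finset.card_product, ← ENNReal.ofReal_natCast]
  refine ENNReal.ofReal_le_ofReal ?_
  have hq' : (2 : ℝ) ≤ ((R a).card : ℝ) := by exact_mod_cast hq
  have h5 : (((R a).card : ℝ) - 1) * ((X a r).card : ℝ) ≤ (H.card : ℝ) := by
    have h6 : (((R a).card - 1 : ℕ) : ℝ) = ((R a).card : ℝ) - 1 := by
      rw [Nat.cast_sub (by omega), Nat.cast_one]
    rw [← h6]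
    exact_mod_cast hH
  refine (real_aux b κ _ _ _ hb hq' hκ (Nat.cast_nonneg _) h5).trans ?_
  push_cast
  rw [sq]

variable [TopologicalSpace G] [IsTopologicalGroup G] [MeasurableSpace G] [BorelSpace G]
  (μ : Measure G) [μ.IsHaarMeasure]

omit [∀ v, IsUltrametricDist (E v)] [TopologicalSpace G] [IsTopologicalGroup G] [BorelSpace G] in
theorem measurable_share (hX : IsPrediction V T R P X) (v : Λ) :
    Measurable (share R X v) := by
  classical
  have h1 : share R X v = fun r => (∑ x ∈ R v, (if x ∈ X v r then (1 : ℝ) else 0)) /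
      ((R v).card : ℝ) := by
    funext r
    rw [share, Finset.sum_boole]
    congr 3
    ext x
    rw [Finset.mem_filter]
    exact ⟨fun h => ⟨hX.subset v r h, h⟩, fun h => h.2⟩
  rw [h1]
  refine Measurable.div_const (Finset.measurable_sum _ fun x _ => ?_) _
  exact Measurable.ite (hX.measurable v x) measurable_const measurable_const

omit [∀ v, IsUltrametricDist (E v)] [IsTopologicalGroup G] in
theorem measurableSet_wrong (hX : IsPrediction V T R P X) (hV : ∀ v, Continuous (V v)) (v : Λ) :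
    MeasurableSet {r | Wrong V X r v} := by
  have h1 : {r | Wrong V X r v} = ⋃ x ∈ R v, ({r | x ∈ X v r} ∩
      {r | ‖(V v r : Matrix (Fin 2) (Fin 2) (E v)).trace - x‖ < 1}) := by
    ext r
    simp only [Wrong, Set.mem_iUnion, Set.mem_inter_iff, Set.mem_ofPred_eq, exists_prop]
    exact ⟨fun ⟨x, hx, hx'⟩ => ⟨x, hX.subset v r hx, hx, hx'⟩,
      fun ⟨x, _, hx, hx'⟩ => ⟨x, hx, hx'⟩⟩
  rw [h1]
  refine Finset.measurableSet_biUnion _ fun x _ => (hX.measurable v x).inter ?_
  refine (isOpen_lt ?_ continuous_const).measurableSet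
  have h2 : Continuous fun r => (V v r : Matrix (Fin 2) (Fin 2) (E v)) :=
    Units.continuous_val.comp (hV v)
  exact (h2.matrix_trace.sub continuous_const).norm

omit [∀ v, IsUltrametricDist (E v)] [IsTopologicalGroup G] in
theorem measurable_wt (hX : IsPrediction V T R P X)
    (hV : ∀ v, Continuous (V v)) (v : Λ) : Measurable (wt V R X b κ v) := by
  classical
  refine ENNReal.measurable_ofReal.comp (Measurable.mul ?_ ?_)
  · exact Measurable.ite (measurableSet_wrong V T R X hX hV v) measurable_const measurable_const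
  · exact Real.measurable_exp.comp ((measurable_share V T R X hX v).const_mul κ)

theorem step (hb : 0 ≤ b) (hb1 : b ≤ 1) (hR : ∀ v, IsReps (R v)) (hX : IsPrediction V T R P X) (hV : ∀ v, Continuous (V v))
    (hVi : ∀ v x s t, ‖(V v x : Matrix (Fin 2) (Fin 2) (E v)) s t‖ ≤ 1) (a : Λ)
    (haP : a ∉ P a) (hκ : κ ≤ b * (1 - 1 / ((R a).card : ℝ))) (hfull : Full V (commonKernel T) a 2) (F : G → ENNReal) (hFm : Measurable F)
    (hF : ∀ h r : G, (∀ (l : ℕ) [Fact l.Prime], T l h = 1) → (∀ w, w ≠ a → V w h = 1) →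
      (V a h : Matrix (Fin 2) (Fin 2) (E a)).det = 1 → F (h * r) = F r) :
    ∫⁻ r, F r * wt V R X b κ a r ∂μ ≤ ∫⁻ r, F r ∂μ := by
  classical
  have hex : ∀ p ∈ R a ×ˢ R a, ∃ h : G, (∀ (l : ℕ) [Fact l.Prime], T l h = 1) ∧
      (∀ w, w ≠ a → V w h = 1) ∧
      (V a h : Matrix (Fin 2) (Fin 2) (E a)) = ul p.1 p.2 := by
    intro p hp
    obtain ⟨hp1, hp2⟩ := Finset.mem_product.1 hp
    have hs := (hR a).1 p.1 hp1
    have ht := (hR a).1 p.2 hp2
    have hts : ‖p.2 * p.1‖ ≤ 1 := by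
      rw [norm_mul]
      exact mul_le_one₀ ht (norm_nonneg _) hs
    have h1 : ‖1 + p.2 * p.1‖ ≤ 1 :=
      (IsUltrametricDist.norm_add_le_max _ _).trans (max_le (by rw [norm_one]) hts)
    obtain ⟨g, hg, hg1, hg2⟩ := hfull ⟨ul p.1 p.2, ul_det _ _⟩ (by
      intro i j
      fin_cases i <;> fin_cases j
      · exact h1
      · exact ht
      · exact hs
      · show ‖(1 : E a)‖ ≤ 1
        rw [norm_one]) (by
      intro i j
      have h2 : ∀ x y : E a, ‖x‖ ≤ 1 → ‖y‖ ≤ 1 → ‖x - y‖ < 2 := by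
        intro x y hx hy
        have h3 : ‖x - y‖ ≤ 1 := by
          rw [sub_eq_add_neg]
          exact (IsUltrametricDist.norm_add_le_max _ _).trans
            (max_le hx (by rw [norm_neg]; exact hy))
        linarith
      refine h2 _ _ ?_ ?_
      · fin_cases i <;> fin_cases j
        · exact h1
        · exact ht
        · exact hs
        · show ‖(1 : E a)‖ ≤ 1
          rw [norm_one]
      · fin_cases i <;> fin_cases j <;> simp)
    refine ⟨g, fun l _ => ?_, hg2, hg1⟩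
    exact Subgroup.mem_iInf.mp (Subgroup.mem_iInf.mp hg l) inferInstance
  choose! h hT1 hw1 hu using hex
  have hdet : ∀ p ∈ R a ×ˢ R a, (V a (h p) : Matrix (Fin 2) (Fin 2) (E a)).det = 1 := by
    intro p hp
    rw [hu p hp, ul_det]
  have hdet' : ∀ p ∈ R a ×ˢ R a, ∀ w, (V w (h p) : Matrix (Fin 2) (Fin 2) (E w)).det = 1 := by
    intro p hp w
    by_cases hwa : w = a
    · subst hwa
      exact hdet p hp
    · rw [hw1 p hp w hwa, Units.val_one, Matrix.det_one]
  have hXr : ∀ r, ∀ p ∈ R a ×ˢ R a, X a (h p * r) = X a r := by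
    intro r p hp
    refine hX.determined a _ _ (fun l _ => ?_) (fun w => ?_) (fun w hw => ?_)
    · rw [map_mul, hT1 p hp l, one_mul]
    · rw [map_mul, Units.val_mul, Matrix.det_mul, hdet' p hp w, one_mul]
    · have hwa : w ≠ a := fun e => haP (e ▸ hw)
      rw [map_mul, hw1 p hp w hwa, one_mul]
  have hwm := measurable_wt V T R X b κ hX hV a
  have key : ((R a ×ˢ R a).card : ENNReal) * ∫⁻ r, F r * wt V R X b κ a r ∂μ ≤
      ((R a ×ˢ R a).card : ENNReal) * ∫⁻ r, F r ∂μ := by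
    calc ((R a ×ˢ R a).card : ENNReal) * ∫⁻ r, F r * wt V R X b κ a r ∂μ
        = ∑ p ∈ R a ×ˢ R a, ∫⁻ r, F r * wt V R X b κ a r ∂μ := by
          rw [Finset.sum_const, nsmul_eq_mul]
      _ = ∑ p ∈ R a ×ˢ R a, ∫⁻ r, F r * wt V R X b κ a (h p * r) ∂μ := by
          refine Finset.sum_congr rfl fun p hp => ?_
          rw [← lintegral_mul_left_eq_self (fun r => F r * wt V R X b κ a r) (h p)]
          refine lintegral_congr fun r => ?_
          rw [hF (h p) r (fun l _ => hT1 p hp l) (hw1 p hp) (hdet p hp)]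
      _ = ∫⁻ r, ∑ p ∈ R a ×ˢ R a, F r * wt V R X b κ a (h p * r) ∂μ := by
          rw [lintegral_finsetSum]
          intro p _
          exact hFm.mul (hwm.comp (measurable_const_mul (h p)))
      _ ≤ ∫⁻ r, F r * ((R a ×ˢ R a).card : ENNReal) ∂μ := by
          refine lintegral_mono fun r => ?_
          show ∑ p ∈ R a ×ˢ R a, F r * wt V R X b κ a (h p * r) ≤ F r * ((R a ×ˢ R a).card : ENNReal)
          rw [← Finset.mul_sum]
          exact mul_le_mul' le_rfl (sum_wt_le V R X b κ hb hb1 hR hVi hX.subset a hκ h r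
            (hXr r) hu)
      _ = ((R a ×ˢ R a).card : ENNReal) * ∫⁻ r, F r ∂μ := by
          rw [lintegral_mul_const _ hFm, mul_comm]
  have hc0 : ((R a ×ˢ R a).card : ENNReal) ≠ 0 := by
    have h8 := two_le_card (hR a)
    rw [Finset.card_product, Nat.cast_ne_zero]
    exact Nat.mul_ne_zero (by omega) (by omega)
  exact (ENNReal.mul_le_mul_iff_right hc0 (ENNReal.natCast_ne_top _)).1 key

end

end Pool.Agent.Helper21.Pred
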