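import Pool.Agent.Helper21.Pred.Defs

/-!
# Predictions: stopping a prediction

`trunc X S K` makes no prediction at the places of the finite set `S` and after the sum of the shares
has reached `K`.
-/

set_option autoImplicit false

open MeasureTheory

namespace Pool.Agent.Helper21.Pred

section

variable {Λ : Type*} {E : Λ → Type*} [∀ v, NontriviallyNormedField (E v)] {G : Type*} [Group G]
  (V : ∀ v, G →* GL (Fin 2) (E v)) {d : ℕ}
  (T : ∀ (l : ℕ) [Fact l.Prime], G →* GL (Fin d) ℚ_[l]) (R : ∀ v, Finset (E v))
  (X : ∀ v, G → Finset (E v)) (e : ℕ ≃ Λ) (S : Finset Λ) (K : ℝ)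

open Classical in
/-- the sum of the shares over the first `N` places outside `S` -/
noncomputable def cum (N : ℕ) (r : G) : ℝ :=
  ∑ i ∈ Finset.range N, if e i ∈ S then 0 else share R X (e i) r

open Classical in
/-- the stopped prediction -/
noncomputable def trunc (v : Λ) (r : G) : Finset (E v) :=
  if v ∈ S ∨ K ≤ cum R X e S (e.symm v) r then ∅ else X v r

omit [∀ v, NontriviallyNormedField (E v)] [Group G] in
theorem share_nn (v : Λ) (r : G) : 0 ≤ share R X v r :=
  div_nonneg (Nat.cast_nonneg _) (Nat.cast_nonneg _)

omit [∀ v, NontriviallyNormedField (E v)] [Group G] in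
theorem cum_succ_ge (N : ℕ) (r : G) : cum R X e S N r ≤ cum R X e S (N + 1) r := by
  classical
  unfold cum
  rw [Finset.sum_range_succ]
  have : (0 : ℝ) ≤ if e N ∈ S then 0 else share R X (e N) r := by
    split_ifs
    · exact le_rfl
    · exact share_nn R X _ r
  linarith

omit [∀ v, NontriviallyNormedField (E v)] [Group G] in
theorem cum_mono (r : G) : Monotone fun N => cum R X e S N r :=
  monotone_nat_of_le_succ fun N => cum_succ_ge R X e S N r

omit [∀ v, NontriviallyNormedField (E v)] [Group G] in
theorem trunc_share_le (N : ℕ) (r : G) :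
    ∑ i ∈ Finset.range N, share R (trunc R X e S K) (e i) r ≤ cum R X e S N r := by
  classical
  unfold cum
  refine Finset.sum_le_sum fun i _ => ?_
  by_cases h : e i ∈ S
  · rw [if_pos h, share, trunc, if_pos (Or.inl h)]
    simp
  · rw [if_neg h]
    unfold share trunc
    split_ifs
    · simp only [Finset.card_empty, Nat.cast_zero, zero_div]
      exact share_nn R X (e i) r
    · exact le_rfl

omit [∀ v, NontriviallyNormedField (E v)] [Group G] in
theorem min_le_trunc_share (N : ℕ) (r : G) :
    min K (cum R X e S N r) ≤ ∑ i ∈ Finset.range N, share R (trunc R X e S K) (e i) r := by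
  classical
  induction N with
  | zero =>
    rw [Finset.range_zero, Finset.sum_empty]
    refine (min_le_right _ _).trans ?_
    unfold cum
    rw [Finset.range_zero, Finset.sum_empty]
  | succ N ih =>
    rw [Finset.sum_range_succ]
    have h0 : 0 ≤ share R (trunc R X e S K) (e N) r := share_nn R _ _ r
    by_cases hK : K ≤ cum R X e S N r
    · rw [min_eq_left hK] at ih
      exact (min_le_left _ _).trans (by linarith)
    · rw [min_eq_right (not_le.1 hK).le] at ih
      refine (min_le_right _ _).trans ?_
      have h1 : cum R X e S (N + 1) r = cum R X e S N r +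
          (if e N ∈ S then 0 else share R X (e N) r) := by
        unfold cum
        rw [Finset.sum_range_succ]
      have h2 : (if e N ∈ S then 0 else share R X (e N) r) =
          share R (trunc R X e S K) (e N) r := by
        by_cases h : e N ∈ S
        · rw [if_pos h]
          unfold share trunc
          rw [if_pos (Or.inl h)]
          simp
        · rw [if_neg h]
          unfold share trunc
          rw [if_neg]
          rw [Equiv.symm_apply_apply]
          exact fun h' => h'.elim h hK
      rw [h1, h2]
      linarith

theorem wrong_of_trunc {r : G} {v : Λ} (h : Wrong V (trunc R X e S K) r v) : Wrong V X r v := by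
  classical
  obtain ⟨x, hx, hx'⟩ := h
  refine ⟨x, ?_, hx'⟩
  unfold trunc at hx
  split_ifs at hx
  · exact absurd hx (Finset.notMem_empty x)
  · exact hx

theorem trunc_errors_le (N : ℕ) (r : G) :
    errors V (trunc R X e S K) e N r ≤ errors V X e N r := by
  classical
  unfold errors
  refine Finset.card_le_card fun i hi => ?_
  obtain ⟨h1, h2⟩ := Finset.mem_filter.1 hi
  exact Finset.mem_filter.2 ⟨h1, wrong_of_trunc V R X e S K h2⟩

theorem trunc_errors_eq {N N' : ℕ} (hN : N ≤ N') (r : G) (h : K ≤ cum R X e S N r) :
    errors V (trunc R X e S K) e N' r = errors V (trunc R X e S K) e N r := by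
  classical
  unfold errors
  congr 1
  ext i
  rw [Finset.mem_filter, Finset.mem_filter, Finset.mem_range, Finset.mem_range]
  constructor
  · rintro ⟨h1, x, hx, hx'⟩
    refine ⟨?_, x, hx, hx'⟩
    by_contra hNi
    unfold trunc at hx
    rw [if_pos] at hx
    · exact Finset.notMem_empty x hx
    · rw [Equiv.symm_apply_apply]
      exact Or.inr (h.trans (cum_mono R X e S r (not_lt.1 hNi)))
  · rintro ⟨h1, h2⟩
    exact ⟨lt_of_lt_of_le h1 hN, h2⟩

variable [MeasurableSpace G]

theorem measurable_share' {P : Λ → Set Λ} (hX : IsPrediction V T R P X) (v : Λ) :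
    Measurable (share R X v) := by
  classical
  have h1 : share R X v = fun r => (∑ x ∈ R v, (if x ∈ X v r then (1 : ℝ) else 0)) /
      ((R v).card : ℝ) := by
    funext r
    rw [share, Finset.sum_boole]
    congr 3
    ext x
    rw [Finset.mem_filter]
    exact ⟨fun h => ⟨hX.subset v r h, h⟩, fun h => h.2⟩
  rw [h1]
  refine Measurable.div_const (Finset.measurable_sum _ fun x _ => ?_) _
  exact Measurable.ite (hX.measurable v x) measurable_const measurable_const

theorem trunc_prediction (hX : IsPrediction V T R (fun v => {w | e.symm w < e.symm v}) X) :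
    IsPrediction V T R (fun v => {w | e.symm w < e.symm v}) (trunc R X e S K) := by
  classical
  have hcm : ∀ N, Measurable (cum R X e S N) := by
    intro N
    unfold cum
    refine Finset.measurable_sum _ fun i _ => ?_
    split_ifs
    · exact measurable_const
    · exact measurable_share' V T R X hX (e i)
  refine ⟨?_, ?_, ?_⟩
  · intro v r
    unfold trunc
    split_ifs
    · exact Finset.empty_subset _
    · exact hX.subset v r
  · intro v x
    have h1 : {r | x ∈ trunc R X e S K v r} =
        ({r | v ∈ S} ∪ {r | K ≤ cum R X e S (e.symm v) r})ᶜ ∩ {r | x ∈ X v r} := by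
      ext r
      simp only [trunc, Set.mem_ofPred_eq, Set.mem_inter_iff, Set.mem_compl_iff, Set.mem_union]
      split_ifs with h
      · simp [h]
      · simp [h]
    rw [h1]
    refine MeasurableSet.inter (MeasurableSet.compl (MeasurableSet.union ?_ ?_))
      (hX.measurable v x)
    · exact MeasurableSet.const _
    · exact measurableSet_le measurable_const (hcm _)
  · intro v r s h1 h2 h3
    have h4 : cum R X e S (e.symm v) r = cum R X e S (e.symm v) s := by
      unfold cum
      refine Finset.sum_congr rfl fun i hi => ?_
      rw [Finset.mem_range] at hi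
      have h5 : X (e i) r = X (e i) s := by
        refine hX.determined (e i) r s h1 h2 fun w hw => h3 w ?_
        rw [Set.mem_ofPred_eq, Equiv.symm_apply_apply] at hw
        exact lt_trans hw hi
      unfold share
      rw [h5]
    have h6 : X v r = X v s := hX.determined v r s h1 h2 h3
    unfold trunc
    rw [h4, h6]

end

end Pool.Agent.Helper21.Pred
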