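import Pool.Agent.Helper21.Pred.Mar
import Pool.Agent.Helper21.Pred.Trunc

/-!
# Predictions: no prediction beats chance

If the common kernel of the `T l` has adelically open image, then for `c < 1` no prediction beats
chance by the factor `c` on a set of positive measure.
-/

set_option autoImplicit false

open MeasureTheory

namespace Pool.Agent.Helper21.Pred

open Pool.Agent.Helper37.Ad

section

variable {Λ : Type*} {E : Λ → Type*} [∀ v, NontriviallyNormedField (E v)]
  [∀ v, IsUltrametricDist (E v)] {G : Type*} [Group G]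
  (V : ∀ v, G →* GL (Fin 2) (E v)) {d : ℕ}
  (T : ∀ (l : ℕ) [Fact l.Prime], G →* GL (Fin d) ℚ_[l]) (R : ∀ v, Finset (E v))
  (X : ∀ v, G → Finset (E v)) (b κ : ℝ)
  [TopologicalSpace G] [IsTopologicalGroup G] [MeasurableSpace G] [BorelSpace G]
  (μ : Measure G) [μ.IsHaarMeasure]

theorem lintegral_prod_le (hb : 0 ≤ b) (hb1 : b ≤ 1) (e : ℕ ≃ Λ) (hR : ∀ v, IsReps (R v))
    (hX : IsPrediction V T R (fun v => {w | e.symm w < e.symm v}) X) (hV : ∀ v, Continuous (V v))
    (hVi : ∀ v x s t, ‖(V v x : Matrix (Fin 2) (Fin 2) (E v)) s t‖ ≤ 1) (S : Finset Λ)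
    (hS : ∀ v, v ∉ S → Full V (commonKernel T) v 2 ∧ κ ≤ b * (1 - 1 / ((R v).card : ℝ)))
    (hS0 : ∀ v ∈ S, ∀ r, X v r = ∅) (N : ℕ) :
    ∫⁻ r, ∏ i ∈ Finset.range N, wt V R X b κ (e i) r ∂μ ≤ μ Set.univ := by
  classical
  induction N with
  | zero => simp only [Finset.range_zero, Finset.prod_empty, lintegral_one, le_refl]
  | succ N ih =>
    by_cases hN : e N ∈ S
    · refine le_trans (le_of_eq (lintegral_congr fun r => ?_)) ih
      rw [Finset.prod_range_succ]
      have h1 : wt V R X b κ (e N) r = 1 := by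
        have h2 : ¬ Wrong V X r (e N) := by
          rintro ⟨x, hx, -⟩
          rw [hS0 (e N) hN r] at hx
          exact Finset.notMem_empty x hx
        unfold wt share
        rw [if_neg h2, hS0 (e N) hN r]
        simp
      rw [h1, mul_one]
    · have h3 : ∀ r, ∏ i ∈ Finset.range (N + 1), wt V R X b κ (e i) r =
          (∏ i ∈ Finset.range N, wt V R X b κ (e i) r) * wt V R X b κ (e N) r := by
        intro r
        rw [Finset.prod_range_succ]
      simp only [h3]
      refine (step V T R X b κ μ hb hb1 hR hX hV hVi (e N) (by simp) (hS (e N) hN).2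
        (hS (e N) hN).1 (fun r => ∏ i ∈ Finset.range N, wt V R X b κ (e i) r)
        (Finset.measurable_prod _ fun i _ => measurable_wt V T R X b κ hX hV (e i)) ?_).trans ih
      intro h r hT hw hdet
      show ∏ i ∈ Finset.range N, wt V R X b κ (e i) (h * r) =
        ∏ i ∈ Finset.range N, wt V R X b κ (e i) r
      refine Finset.prod_congr rfl fun i hi => ?_
      rw [Finset.mem_range] at hi
      have hva : e i ≠ e N := fun h' => absurd (e.injective h') hi.ne
      have hXv : X (e i) (h * r) = X (e i) r := by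
        refine hX.determined (e i) _ _ (fun l _ => ?_) (fun w => ?_) (fun w hwv => ?_)
        · rw [map_mul, hT l, one_mul]
        · rw [map_mul, Units.val_mul, Matrix.det_mul]
          by_cases hwa : w = e N
          · subst hwa
            rw [hdet, one_mul]
          · rw [hw w hwa, Units.val_one, Matrix.det_one, one_mul]
        · have hwa : w ≠ e N := by
            rintro rfl
            rw [Set.mem_ofPred_eq, Equiv.symm_apply_apply, Equiv.symm_apply_apply] at hwv
            exact lt_asymm hi hwv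
          rw [map_mul, hw w hwa, one_mul]
      have hVv : V (e i) (h * r) = V (e i) r := by
        rw [map_mul, hw (e i) hva, one_mul]
      have hW : Wrong V X (h * r) (e i) = Wrong V X r (e i) := by
        unfold Wrong
        rw [hXv, hVv]
      have hsh : share R X (e i) (h * r) = share R X (e i) r := by
        unfold share
        rw [hXv]
      unfold wt
      rw [hsh]
      simp only [hW]

/-- a large sum of shares and few errors are improbable -/
theorem measure_le (hb : 0 ≤ b) (hb1 : b < 1) (hκ0 : 0 ≤ κ) (e : ℕ ≃ Λ)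
    (hR : ∀ v, IsReps (R v))
    (hX : IsPrediction V T R (fun v => {w | e.symm w < e.symm v}) X) (hV : ∀ v, Continuous (V v))
    (hVi : ∀ v x s t, ‖(V v x : Matrix (Fin 2) (Fin 2) (E v)) s t‖ ≤ 1) (S : Finset Λ)
    (hS : ∀ v, v ∉ S → Full V (commonKernel T) v 2 ∧ κ ≤ b * (1 - 1 / ((R v).card : ℝ)))
    (hS0 : ∀ v ∈ S, ∀ r, X v r = ∅) (N : ℕ) (K m : ℝ) (D : Set G)
    (hD : ∀ r ∈ D, K ≤ ∑ i ∈ Finset.range N, share R X (e i) r ∧ (errors V X e N r : ℝ) ≤ m) :
    ENNReal.ofReal (Real.exp (Real.log (1 - b) * m + κ * K)) * μ D ≤ μ Set.univ := by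
  classical
  have hm : Measurable fun r => ∏ i ∈ Finset.range N, wt V R X b κ (e i) r :=
    Finset.measurable_prod _ fun i _ => measurable_wt V T R X b κ hX hV (e i)
  have hb' : 0 < 1 - b := by linarith
  have hsub : D ⊆ {r | ENNReal.ofReal (Real.exp (Real.log (1 - b) * m + κ * K)) ≤
      ∏ i ∈ Finset.range N, wt V R X b κ (e i) r} := by
    intro r hr
    obtain ⟨h1, h1'⟩ := hD r hr
    rw [Set.mem_ofPred_eq]
    have h2 : ∏ i ∈ Finset.range N, wt V R X b κ (e i) r =
        ENNReal.ofReal ((∏ i ∈ Finset.range N, (if Wrong V X r (e i) then (1 - b : ℝ) else 1)) *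
          Real.exp (κ * ∑ i ∈ Finset.range N, share R X (e i) r)) := by
      simp only [wt]
      rw [← ENNReal.ofReal_prod_of_nonneg]
      · rw [Finset.prod_mul_distrib, ← Real.exp_sum, Finset.mul_sum]
      · intro i _
        refine mul_nonneg ?_ (Real.exp_pos _).le
        split_ifs <;> linarith
    rw [h2]
    refine ENNReal.ofReal_le_ofReal ?_
    rw [Finset.prod_ite, Finset.prod_const, Finset.prod_const_one, mul_one, Real.exp_add]
    have h5 : (1 - b) ^ ((Finset.range N).filter fun i => Wrong V X r (e i)).card =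
        Real.exp (Real.log (1 - b) * (errors V X e N r : ℝ)) := by
      rw [mul_comm, Real.exp_nat_mul, Real.exp_log hb']
      rfl
    rw [h5]
    refine mul_le_mul ?_ ?_ (Real.exp_pos _).le (Real.exp_pos _).le
    · refine Real.exp_le_exp.2 ?_
      exact mul_le_mul_of_nonpos_left h1' (Real.log_nonpos hb'.le (by linarith))
    · exact Real.exp_le_exp.2 (mul_le_mul_of_nonneg_left h1 hκ0)
  calc ENNReal.ofReal (Real.exp (Real.log (1 - b) * m + κ * K)) * μ D
      ≤ ENNReal.ofReal (Real.exp (Real.log (1 - b) * m + κ * K)) *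
        μ {r | ENNReal.ofReal (Real.exp (Real.log (1 - b) * m + κ * K)) ≤
          ∏ i ∈ Finset.range N, wt V R X b κ (e i) r} :=
        mul_le_mul' le_rfl (measure_mono hsub)
    _ ≤ ∫⁻ r, ∏ i ∈ Finset.range N, wt V R X b κ (e i) r ∂μ := mul_meas_ge_le_lintegral hm _
    _ ≤ μ Set.univ := lintegral_prod_le V T R X b κ μ hb hb1.le e hR hX hV hVi S hS hS0 N

private theorem num_aux (c : ℝ) (hc0 : 0 ≤ c) (hc : c < 1) :
    ∃ b : ℝ, 0 < b ∧ b < 1 ∧ 0 < b * (1 - b) + c * Real.log (1 - b) := by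
  refine ⟨(1 - c) / 4, by linarith, by linarith, ?_⟩
  obtain ⟨b, hb⟩ : ∃ b, b = (1 - c) / 4 := ⟨_, rfl⟩
  rw [← hb]
  have hb0 : 0 < b := by linarith
  have hb1 : b < 1 := by linarith
  have h1 : -(b / (1 - b)) ≤ Real.log (1 - b) := by
    have h2 := Real.one_sub_inv_le_log_of_pos (x := 1 - b) (by linarith)
    have h3 : 1 - (1 - b)⁻¹ = -(b / (1 - b)) := by
      have : 1 - b ≠ 0 := by linarith
      field_simp
      ring
    rwa [h3] at h2
  have h4 : c * (-(b / (1 - b))) ≤ c * Real.log (1 - b) := mul_le_mul_of_nonneg_left h1 hc0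
  have h5 : 0 < b * (1 - b) + c * (-(b / (1 - b))) := by
    have h6 : b * (1 - b) + c * (-(b / (1 - b))) = b * ((1 - b) ^ 2 - c) / (1 - b) := by
      have : 1 - b ≠ 0 := by linarith
      field_simp
      ring
    rw [h6]
    refine div_pos (mul_pos hb0 ?_) (by linarith)
    have hc2 : c = 1 - 4 * b := by linarith
    rw [hc2]
    nlinarith
  linarith

theorem null [CompactSpace G] (e : ℕ ≃ Λ) (hR : ∀ v, IsReps (R v))
    (hX : IsPrediction V T R (fun v => {w | e.symm w < e.symm v}) X) (hV : ∀ v, Continuous (V v))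
    (hVi : ∀ v x s t, ‖(V v x : Matrix (Fin 2) (Fin 2) (E v)) s t‖ ≤ 1) (S₀ : Finset Λ)
    (hS₀ : ∀ v, v ∉ S₀ → Full V (commonKernel T) v 2)
    (hbig : ∀ Q : ℕ, {v | (R v).card < Q}.Finite) (c : ℝ) (hc : c < 1) :
    μ {r | BeatsChance V R X e c r} = 0 := by
  classical
  obtain ⟨c', hc'⟩ : ∃ c', c' = max c 0 := ⟨_, rfl⟩
  have hc'0 : 0 ≤ c' := by rw [hc']; exact le_max_right _ _
  have hc'1 : c' < 1 := by rw [hc']; exact max_lt hc one_pos
  have hcc' : c ≤ c' := by rw [hc']; exact le_max_left _ _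
  obtain ⟨b, hb0, hb1, hδ⟩ := num_aux c' hc'0 hc'1
  obtain ⟨κ, hκ⟩ : ∃ κ, κ = b * (1 - b) := ⟨_, rfl⟩
  rw [← hκ] at hδ
  have hκ0 : 0 ≤ κ := by
    rw [hκ]
    exact mul_nonneg hb0.le (by linarith)
  obtain ⟨Q, hQ⟩ := exists_nat_gt (1 / b)
  let S : Finset Λ := S₀ ∪ (hbig Q).toFinset
  have hS : ∀ v, v ∉ S → Full V (commonKernel T) v 2 ∧ κ ≤ b * (1 - 1 / ((R v).card : ℝ)) := by
    intro v hv
    rw [Finset.mem_union, not_or, Set.Finite.mem_toFinset, Set.mem_ofPred_eq, not_lt] at hv
    refine ⟨hS₀ v hv.1, ?_⟩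
    rw [hκ]
    refine mul_le_mul_of_nonneg_left ?_ hb0.le
    have h1 : (Q : ℝ) ≤ ((R v).card : ℝ) := by exact_mod_cast hv.2
    have h2 : 1 / b < ((R v).card : ℝ) := lt_of_lt_of_le hQ h1
    have h3 : 0 < 1 / b := by positivity
    have h4 : 1 / ((R v).card : ℝ) ≤ b := by
      have h5 := one_div_le_one_div_of_le h3 h2.le
      rwa [one_div_one_div] at h5
    linarith
  -- the improbable events
  let Dn : ℕ → ℕ → Set G := fun K N => {r | (K : ℝ) ≤ ∑ i ∈ Finset.range N,
      share R (trunc R X e S K) (e i) r ∧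
      (errors V (trunc R X e S K) e N r : ℝ) ≤ c' * (K + 1 + S.card)}
  have hDmono : ∀ K, Monotone (Dn K) := by
    intro K N N' hNN r hr
    have h1 : (K : ℝ) ≤ cum R X e S N r := hr.1.trans (trunc_share_le R X e S K N r)
    refine ⟨hr.1.trans ?_, ?_⟩
    · exact Finset.sum_le_sum_of_subset_of_nonneg (Finset.range_mono hNN)
        fun i _ _ => share_nn R _ _ r
    · rw [trunc_errors_eq V R X e S K hNN r h1]
      exact hr.2
  obtain ⟨δ, hδ'⟩ : ∃ δ, δ = κ + c' * Real.log (1 - b) := ⟨_, rfl⟩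
  rw [← hδ'] at hδ
  obtain ⟨θ, hθ⟩ : ∃ θ, θ = Real.log (1 - b) * (c' * (1 + S.card)) := ⟨_, rfl⟩
  have hDle : ∀ K : ℕ, μ (⋃ N, Dn K N) ≤
      μ Set.univ * ENNReal.ofReal (Real.exp (-θ) * Real.exp (-δ) ^ K) := by
    intro K
    have h1 : ENNReal.ofReal (Real.exp (θ + δ * K)) * μ (⋃ N, Dn K N) ≤ μ Set.univ := by
      rw [(hDmono K).measure_iUnion, ENNReal.mul_iSup]
      refine iSup_le fun N => ?_
      have h2 := measure_le V T R (trunc R X e S K) b κ μ hb0.le hb1 hκ0 e hR
        (trunc_prediction V T R X e S K hX) hV hVi S hS (fun v hv r => by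
          unfold trunc
          rw [if_pos (Or.inl hv)]) N K (c' * (K + 1 + S.card)) (Dn K N) (fun r hr => hr)
      have h3 : Real.log (1 - b) * (c' * (K + 1 + S.card)) + κ * K = θ + δ * K := by
        rw [hθ, hδ']
        ring
      rwa [h3] at h2
    have h4 : Real.exp (-θ) * Real.exp (-δ) ^ K = (Real.exp (θ + δ * K))⁻¹ := by
      rw [← Real.exp_nat_mul, ← Real.exp_add, ← Real.exp_neg]
      congr 1
      ring
    rw [h4, ENNReal.ofReal_inv_of_pos (Real.exp_pos _)]
    rw [← div_eq_mul_inv]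
    rw [ENNReal.le_div_iff_mul_le (Or.inl ?_) (Or.inl ENNReal.ofReal_ne_top)]
    · rw [mul_comm]
      exact h1
    · exact (ENNReal.ofReal_pos.2 (Real.exp_pos _)).ne'
  have hsum : ∑' K : ℕ, μ {r | r ∈ ⋃ N, Dn K N} ≠ ⊤ := by
    have h1 : ∑' K : ℕ, μ {r | r ∈ ⋃ N, Dn K N} ≤
        ∑' K : ℕ, μ Set.univ * ENNReal.ofReal (Real.exp (-θ) * Real.exp (-δ) ^ K) :=
      ENNReal.tsum_le_tsum fun K => hDle K
    refine ne_top_of_le_ne_top ?_ h1
    rw [ENNReal.tsum_mul_left]
    refine ENNReal.mul_ne_top (measure_ne_top μ _) ?_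
    have h2 : Summable fun K : ℕ => Real.exp (-θ) * Real.exp (-δ) ^ K := by
      refine Summable.mul_left _ (summable_geometric_of_lt_one (Real.exp_pos _).le ?_)
      rw [Real.exp_lt_one_iff]
      linarith
    exact h2.tsum_ofReal_ne_top
  have hfreq := measure_setOfPred_frequently_eq_zero (p := fun K r => r ∈ ⋃ N, Dn K N) hsum
  refine measure_mono_null ?_ hfreq
  rintro r ⟨hr1, hr2⟩
  rw [Set.mem_ofPred_eq, Filter.frequently_atTop]
  intro K₀
  have hcumle : ∀ N, ∑ i ∈ Finset.range N, share R X (e i) r ≤ cum R X e S N r + S.card := by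
    intro N
    have h1 : ∑ i ∈ Finset.range N, share R X (e i) r ≤
        cum R X e S N r + ∑ i ∈ Finset.range N, (if e i ∈ S then (1 : ℝ) else 0) := by
      unfold cum
      rw [← Finset.sum_add_distrib]
      refine Finset.sum_le_sum fun i _ => ?_
      split_ifs
      · rw [zero_add]
        have h4 := two_le_card (hR (e i))
        rw [share, div_le_one (by exact_mod_cast (show 0 < (R (e i)).card by omega))]
        exact_mod_cast Finset.card_le_card (hX.subset (e i) r)
      · rw [add_zero]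
    have h2 : ∑ i ∈ Finset.range N, (if e i ∈ S then (1 : ℝ) else 0) ≤ S.card := by
      rw [Finset.sum_boole]
      have h3 : ((Finset.range N).filter fun i => e i ∈ S).card ≤ S.card :=
        Finset.card_le_card_of_injOn e (fun i hi => (Finset.mem_filter.1 hi).2)
          e.injective.injOn
      exact_mod_cast h3
    linarith
  have hev := hr1.eventually_ge_atTop ((K₀ : ℝ) + S.card)
  obtain ⟨N, hN1, hN2⟩ := (hr2.and_eventually hev).exists
  have hN3 := hcumle N
  have hcum0 : (K₀ : ℝ) ≤ cum R X e S N r := by linarith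
  have hcumnn : 0 ≤ cum R X e S N r := le_trans (Nat.cast_nonneg _) hcum0
  refine ⟨⌊cum R X e S N r⌋₊, Nat.le_floor hcum0, ?_⟩
  rw [Set.mem_iUnion]
  have hfl := Nat.floor_le hcumnn
  have hfl2 := Nat.lt_floor_add_one (cum R X e S N r)
  refine ⟨N, ?_, ?_⟩
  · have h1 := min_le_trunc_share R X e S ((⌊cum R X e S N r⌋₊ : ℕ) : ℝ) N r
    rwa [min_eq_left hfl] at h1
  · have h1 := trunc_errors_le V R X e S ((⌊cum R X e S N r⌋₊ : ℕ) : ℝ) N r
    have h2 : (errors V (trunc R X e S ((⌊cum R X e S N r⌋₊ : ℕ) : ℝ)) e N r : ℝ) ≤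
        (errors V X e N r : ℝ) := by exact_mod_cast h1
    have h3 : c * ∑ i ∈ Finset.range N, share R X (e i) r ≤
        c' * ∑ i ∈ Finset.range N, share R X (e i) r :=
      mul_le_mul_of_nonneg_right hcc' (Finset.sum_nonneg fun i _ => share_nn R X (e i) r)
    have h4 : c' * ∑ i ∈ Finset.range N, share R X (e i) r ≤
        c' * (((⌊cum R X e S N r⌋₊ : ℕ) : ℝ) + 1 + S.card) :=
      mul_le_mul_of_nonneg_left (by linarith) hc'0
    linarith

end

end Pool.Agent.Helper21.Pred
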